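import Mathlib

/-!
# No bounded transversals when the sets are small: the construction over `ZMod Q`

`Q` is a prime with `lam ∣ Q - 1`. The points are the pairs `(x, z)`, `x ∈ ZMod Q`, `z` a nonzero
`lam`-th power; the sets are (parts of) `{(x, (a x + b)^lam)}`, any two of which share at most `lam`
points.
-/

set_option autoImplicit false

namespace K3h83.BT

open Finset

section constr

variable (Q lam : ℕ) [hQ : Fact Q.Prime]

/-- nonzero `lam`-th powers -/
abbrev Pw : Type := (powMonoidHom lam : (ZMod Q)ˣ →* (ZMod Q)ˣ).range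

noncomputable instance : Fintype (Pw Q lam) := Fintype.ofFinite _

theorem card_Pw (h : lam ∣ Q - 1) : Fintype.card (Pw Q lam) = (Q - 1) / lam := by
  have h1 := IsCyclic.card_powMonoidHom_range (G := (ZMod Q)ˣ) lam
  rw [Nat.card_eq_fintype_card, Nat.card_eq_fintype_card, ZMod.card_units] at h1
  rw [h1, Nat.gcd_eq_right h]

/-- the chosen root -/
noncomputable def rt (p : Pw Q lam) : (ZMod Q)ˣ := Classical.choose p.2

theorem rt_spec (p : Pw Q lam) : (rt Q lam p) ^ lam = p.1 := Classical.choose_spec p.2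

open Classical in
/-- the part of the curve with parameters `(a, p)` above `T` -/
noncomputable def LL (a : ZMod Q) (p : Pw Q lam) (T : Finset (ZMod Q)) :
    Finset (ZMod Q × Pw Q lam) :=
  univ.filter (fun w => w.1 ∈ T ∧ (a * w.1 + (rt Q lam p : ZMod Q)) ^ lam = (w.2.1 : ZMod Q))

variable {Q lam}

theorem mem_LL {a : ZMod Q} {p : Pw Q lam} {T : Finset (ZMod Q)} {w : ZMod Q × Pw Q lam} :
    w ∈ LL Q lam a p T ↔ w.1 ∈ T ∧ (a * w.1 + (rt Q lam p : ZMod Q)) ^ lam = (w.2.1 : ZMod Q) := by
  simp [LL]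

theorem LL_inj {a : ZMod Q} {p : Pw Q lam} {T : Finset (ZMod Q)} {w w' : ZMod Q × Pw Q lam}
    (h : w ∈ LL Q lam a p T) (h' : w' ∈ LL Q lam a p T) (he : w.1 = w'.1) : w = w' := by
  rw [mem_LL] at h h'
  have h1 := h.2
  rw [he, h'.2] at h1
  apply Prod.ext he
  apply Subtype.ext
  apply Units.ext
  exact h1.symm

/-- two curves share at most `lam` points -/
theorem LL_inter (hl : lam ≠ 0) (hlQ : lam < Q) {a a' : ZMod Q} {p p' : Pw Q lam}
    (hne : (a, p) ≠ (a', p')) (T T' : Finset (ZMod Q)) :
    (LL Q lam a p T ∩ LL Q lam a' p' T').card ≤ lam := by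
  classical
  set f : Polynomial (ZMod Q) :=
    (Polynomial.C a * Polynomial.X + Polynomial.C (rt Q lam p : ZMod Q)) ^ lam -
      (Polynomial.C a' * Polynomial.X + Polynomial.C (rt Q lam p' : ZMod Q)) ^ lam with hf
  have hlF : (lam : ZMod Q) ≠ 0 := by
    intro h
    rw [ZMod.natCast_eq_zero_iff] at h
    exact absurd (Nat.le_of_dvd (Nat.pos_of_ne_zero hl) h) (by omega)
  have hf0 : f ≠ 0 := by
    intro h
    apply hne
    have h1 : f.eval 0 = 0 := by rw [h]; simp
    simp only [hf, Polynomial.eval_sub, Polynomial.eval_pow, Polynomial.eval_add,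
      Polynomial.eval_mul, Polynomial.eval_C, Polynomial.eval_X, mul_zero, zero_add] at h1
    have hp : p = p' := by
      apply Subtype.ext
      rw [← rt_spec, ← rt_spec]
      apply Units.ext
      push_cast
      exact sub_eq_zero.1 h1
    subst hp
    have h2 : (Polynomial.derivative f).eval 0 = 0 := by rw [h]; simp
    simp only [hf, Polynomial.derivative_sub, Polynomial.derivative_pow, Polynomial.eval_sub,
      Polynomial.eval_mul, Polynomial.eval_pow, Polynomial.eval_add,
      Polynomial.eval_C, Polynomial.eval_X, mul_zero, zero_add, Polynomial.derivative_add,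
      Polynomial.derivative_mul, Polynomial.derivative_C, Polynomial.derivative_X, zero_mul,
      mul_one, add_zero] at h2
    have h3 : (lam : ZMod Q) * (rt Q lam p : ZMod Q) ^ (lam - 1) * (a - a') = 0 := by
      rw [mul_sub]; exact h2
    have h4 : (rt Q lam p : ZMod Q) ^ (lam - 1) ≠ 0 := pow_ne_zero _ (Units.ne_zero _)
    have h5 : a - a' = 0 := by
      rcases mul_eq_zero.1 h3 with h6 | h6
      · rcases mul_eq_zero.1 h6 with h7 | h7
        · exact absurd h7 hlF
        · exact absurd h7 h4
      · exact h6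
    rw [sub_eq_zero.1 h5]
  have hdeg : f.natDegree ≤ lam := by
    rw [hf]
    have hlin : ∀ u v : ZMod Q, ((Polynomial.C u * Polynomial.X + Polynomial.C v) ^ lam).natDegree
        ≤ lam := by
      intro u v
      calc _ ≤ lam * (Polynomial.C u * Polynomial.X + Polynomial.C v).natDegree :=
            Polynomial.natDegree_pow_le
        _ ≤ lam * 1 := Nat.mul_le_mul_left _ Polynomial.natDegree_linear_le
        _ = lam := by ring
    exact (Polynomial.natDegree_sub_le _ _).trans (max_le (hlin _ _) (hlin _ _))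
  calc (LL Q lam a p T ∩ LL Q lam a' p' T').card
      = ((LL Q lam a p T ∩ LL Q lam a' p' T').image Prod.fst).card := by
        rw [card_image_of_injOn]
        intro w hw w' hw' he
        have h1 : w ∈ LL Q lam a p T ∩ LL Q lam a' p' T' := hw
        have h2 : w' ∈ LL Q lam a p T ∩ LL Q lam a' p' T' := hw'
        exact LL_inj (mem_inter.1 h1).1 (mem_inter.1 h2).1 he
    _ ≤ f.roots.toFinset.card := by
        apply card_le_card
        intro x hx
        rw [mem_image] at hx
        obtain ⟨w, hw, rfl⟩ := hx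
        rw [mem_inter, mem_LL, mem_LL] at hw
        rw [Multiset.mem_toFinset, Polynomial.mem_roots hf0]
        simp only [hf, Polynomial.IsRoot, Polynomial.eval_sub, Polynomial.eval_pow,
          Polynomial.eval_add, Polynomial.eval_mul, Polynomial.eval_C, Polynomial.eval_X]
        rw [hw.1.2, hw.2.2, sub_self]
    _ ≤ Multiset.card f.roots := Multiset.toFinset_card_le _
    _ ≤ f.natDegree := Polynomial.card_roots' f
    _ ≤ lam := hdeg

/-- the curves are large -/
theorem LL_card (a : ZMod Q) (p : Pw Q lam) (T : Finset (ZMod Q)) :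
    T.card ≤ (LL Q lam a p T).card + 1 := by
  classical
  have h1 : T ⊆ ((LL Q lam a p T).image Prod.fst) ∪
      (univ.filter (fun x : ZMod Q => a * x + (rt Q lam p : ZMod Q) = 0)) := by
    intro x hx
    rw [mem_union]
    by_cases h0 : a * x + (rt Q lam p : ZMod Q) = 0
    · right; simp [h0]
    · left
      rw [mem_image]
      refine ⟨(x, ⟨(Units.mk0 _ h0) ^ lam, ⟨Units.mk0 _ h0, rfl⟩⟩), ?_, rfl⟩
      rw [mem_LL]
      refine ⟨hx, ?_⟩
      simp
  have h2 : (univ.filter (fun x : ZMod Q => a * x + (rt Q lam p : ZMod Q) = 0)).card ≤ 1 := by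
    rw [card_le_one]
    intro x hx y hy
    simp only [mem_filter, mem_univ, true_and] at hx hy
    have h3 : a * (x - y) = 0 := by linear_combination hx - hy
    rcases mul_eq_zero.1 h3 with h4 | h4
    · rw [h4, zero_mul, zero_add] at hx
      exact absurd hx (Units.ne_zero _)
    · exact sub_eq_zero.1 h4
  calc T.card ≤ _ := card_le_card h1
    _ ≤ _ := card_union_le _ _
    _ ≤ (LL Q lam a p T).card + 1 := Nat.add_le_add card_image_le h2

/-- the union of the blocks with index in `J` -/
def TT (N : ℕ) (J : Finset (Fin N)) : Finset (ZMod Q) :=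
  univ.filter (fun x => ∃ j ∈ J, (j : ℕ) = x.val % N)

theorem mem_TT {N : ℕ} {J : Finset (Fin N)} {x : ZMod Q} :
    x ∈ TT N J ↔ ∃ j ∈ J, (j : ℕ) = x.val % N := by
  simp [TT]

/-- the block unions are large -/
theorem TT_card (N : ℕ) (J : Finset (Fin N)) : J.card * (Q / N) ≤ (TT (Q := Q) N J).card := by
  classical
  -- inject `J × [Q / N]`
  have hinj : (J ×ˢ range (Q / N)).card ≤ (TT (Q := Q) N J).card := by
    apply card_le_card_of_injOn (fun w => (((w.1 : ℕ) + N * w.2 : ℕ) : ZMod Q))
    · intro w hw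
      have hw' : w ∈ J ×ˢ range (Q / N) := hw
      rw [mem_product, mem_range] at hw'
      have hlt : (w.1 : ℕ) + N * w.2 < Q := by
        have h1 := w.1.2
        have h2 : w.2 + 1 ≤ Q / N := hw'.2
        have h3 : N * (w.2 + 1) ≤ N * (Q / N) := Nat.mul_le_mul_left _ h2
        have h4 : N * (Q / N) ≤ Q := Nat.mul_div_le Q N
        nlinarith
      have : (((w.1 : ℕ) + N * w.2 : ℕ) : ZMod Q) ∈ TT (Q := Q) N J := by
        rw [mem_TT]
        refine ⟨w.1, hw'.1, ?_⟩
        rw [ZMod.val_natCast_of_lt hlt, Nat.add_mul_mod_self_left, Nat.mod_eq_of_lt w.1.2]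
      exact this
    · intro w hw w' hw' he
      have h1 : w ∈ J ×ˢ range (Q / N) := hw
      have h2 : w' ∈ J ×ˢ range (Q / N) := hw'
      rw [mem_product, mem_range] at h1 h2
      have hlt : ∀ u : Fin N × ℕ, u.2 < Q / N → (u.1 : ℕ) + N * u.2 < Q := by
        intro u hu
        have h1 := u.1.2
        have h2 : u.2 + 1 ≤ Q / N := hu
        have h3 : N * (u.2 + 1) ≤ N * (Q / N) := Nat.mul_le_mul_left _ h2
        have h4 : N * (Q / N) ≤ Q := Nat.mul_div_le Q N
        nlinarith
      have h3 : (w.1 : ℕ) + N * w.2 = (w'.1 : ℕ) + N * w'.2 := by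
        have := congrArg ZMod.val he
        simp only at this
        rwa [ZMod.val_natCast_of_lt (hlt w h1.2), ZMod.val_natCast_of_lt (hlt w' h2.2)] at this
      have h4 : (w.1 : ℕ) = w'.1 := by
        have := congrArg (· % N) h3
        simp only [Nat.add_mul_mod_self_left] at this
        rwa [Nat.mod_eq_of_lt w.1.2, Nat.mod_eq_of_lt w'.1.2] at this
      have hN : 0 < N := lt_of_le_of_lt (Nat.zero_le _) w.1.2
      have h5 : w.2 = w'.2 := by
        rw [h4] at h3
        have : N * w.2 = N * w'.2 := by omega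
        exact Nat.eq_of_mul_eq_mul_left hN this
      exact Prod.ext (Fin.ext h4) h5
  rwa [card_product, card_range] at hinj

/-- for every set `S` and every curve some choice of the blocks misses `S` or contains more than
`C` points of `S` -/
theorem exists_bad {N C : ℕ} (hN : 2 * C + 1 ≤ N) (a : ZMod Q) (p : Pw Q lam)
    (S : Finset (ZMod Q × Pw Q lam)) :
    ∃ J ∈ powersetCard (N - C) (univ : Finset (Fin N)),
      (LL Q lam a p (TT N J) ∩ S).card = 0 ∨ C < (LL Q lam a p (TT N J) ∩ S).card := by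
  classical
  have hN0 : 0 < N := by omega
  set U := LL Q lam a p univ ∩ S with hU
  let bl : ZMod Q × Pw Q lam → Fin N := fun w => ⟨w.1.val % N, Nat.mod_lt _ hN0⟩
  set JU := U.image bl with hJU
  by_cases hc : JU.card ≤ C
  · -- avoid the blocks
    have h1 : N - C ≤ (JUᶜ).card := by
      rw [card_compl, Fintype.card_fin]
      omega
    obtain ⟨J, hJ1, hJ2⟩ := exists_subset_card_eq h1
    refine ⟨J, by rw [mem_powersetCard]; exact ⟨subset_univ _, hJ2⟩, Or.inl ?_⟩
    rw [card_eq_zero, eq_empty_iff_forall_notMem]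
    intro w hw
    rw [mem_inter, mem_LL, mem_TT] at hw
    obtain ⟨⟨⟨j, hj, hjw⟩, h2⟩, h3⟩ := hw
    have hwU : w ∈ U := by
      rw [hU, mem_inter, mem_LL]
      exact ⟨⟨mem_univ _, h2⟩, h3⟩
    have h4 : bl w ∈ JU := mem_image_of_mem _ hwU
    have h5 : bl w = j := by
      apply Fin.ext
      exact hjw.symm
    rw [h5] at h4
    exact (mem_compl.1 (hJ1 hj)) h4
  · push Not at hc
    obtain ⟨J0, hJ01, hJ02⟩ := exists_subset_card_eq (show C + 1 ≤ JU.card from hc)
    obtain ⟨J, hJ1, hJ2, hJ3⟩ := exists_subsuperset_card_eq (subset_univ J0)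
      (show J0.card ≤ N - C by omega) (by rw [card_univ, Fintype.card_fin]; omega)
    refine ⟨J, by rw [mem_powersetCard]; exact ⟨hJ2, hJ3⟩, Or.inr ?_⟩
    have h1 : J0 ⊆ (LL Q lam a p (TT N J) ∩ S).image bl := by
      intro j hj
      have h2 := hJ01 hj
      rw [hJU, mem_image] at h2
      obtain ⟨w, hw, rfl⟩ := h2
      rw [hU, mem_inter, mem_LL] at hw
      rw [mem_image]
      refine ⟨w, ?_, rfl⟩
      rw [mem_inter, mem_LL, mem_TT]
      exact ⟨⟨⟨bl w, hJ1 hj, rfl⟩, hw.1.2⟩, hw.2⟩
    calc C < J0.card := by omega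
      _ ≤ _ := card_le_card h1
      _ ≤ _ := card_image_le

open Classical in
/-- the number of small sets -/
theorem count_small (C : ℕ) :
    (univ.filter (fun S : Finset (ZMod Q × Pw Q lam) =>
      ∀ p, (LL Q lam 0 p univ ∩ S).card ≤ C)).card ≤ ((Q + 1) ^ C) ^ (Fintype.card (Pw Q lam)) := by
  -- surjection from functions
  let Φ : (Pw Q lam → Fin C → Option (ZMod Q)) → Finset (ZMod Q × Pw Q lam) :=
    fun f => univ.filter (fun w => ∃ i, f w.2 i = some w.1)
  have hsurj : (univ.filter (fun S : Finset (ZMod Q × Pw Q lam) =>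
      ∀ p, (LL Q lam 0 p univ ∩ S).card ≤ C)) ⊆ univ.image Φ := by
    intro S hS
    rw [mem_filter] at hS
    have hS := hS.2
    rw [mem_image]
    -- the slices
    let sl : Pw Q lam → Finset (ZMod Q) := fun p => univ.filter (fun x => (x, p) ∈ S)
    have hsl : ∀ p, (sl p).card ≤ C := by
      intro p
      refine le_trans ?_ (hS p)
      apply card_le_card_of_injOn (fun x => (x, p))
      · intro x hx
        have hx' : x ∈ sl p := hx
        have hx2 : (x, p) ∈ S := by
          simpa [sl] using hx'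
        have : (x, p) ∈ LL Q lam 0 p univ ∩ S := by
          rw [mem_inter, mem_LL]
          refine ⟨⟨mem_univ _, ?_⟩, hx2⟩
          simp only [zero_mul, zero_add]
          rw [← Units.val_pow_eq_pow_val, rt_spec]
        exact this
      · intro x _ y _ h
        exact congrArg Prod.fst h
    have hex : ∀ p, ∃ g : Fin C → Option (ZMod Q), ∀ x, x ∈ sl p ↔ ∃ i, g i = some x := by
      intro p
      have e := (sl p).equivFin
      refine ⟨fun i => if h : (i : ℕ) < (sl p).card then some (e.symm ⟨i, h⟩) else none, fun x => ?_⟩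
      constructor
      · intro hx
        have h1 := (e ⟨x, hx⟩).2
        refine ⟨⟨e ⟨x, hx⟩, lt_of_lt_of_le h1 (hsl p)⟩, ?_⟩
        simp only [Fin.eta, Equiv.symm_apply_apply]
        rw [dif_pos h1]
      · rintro ⟨i, hi⟩
        by_cases h : (i : ℕ) < (sl p).card
        · simp only [h, dif_pos, Option.some.injEq] at hi
          rw [← hi]
          exact (e.symm ⟨i, h⟩).2
        · simp only [h, dif_neg, not_false_eq_true] at hi
          exact absurd hi (by simp)
    choose g hg using hex
    refine ⟨g, mem_univ _, ?_⟩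
    ext w
    simp only [Φ, mem_filter, mem_univ, true_and]
    rw [← hg]
    simp [sl]
  calc _ ≤ (univ.image Φ).card := card_le_card hsurj
    _ ≤ (univ : Finset (Pw Q lam → Fin C → Option (ZMod Q))).card := card_image_le
    _ = _ := by
      rw [card_univ, Fintype.card_fun, Fintype.card_fun, Fintype.card_option, ZMod.card,
        Fintype.card_fin]

open Classical in
/-- **The choice of the blocks.** -/
theorem exists_choice {N C R : ℕ} (hN : 2 * C + 1 ≤ N) (hR : (N.choose (N - C)) = R)
    (hnum : (Q + 1) ^ C * (R - 1) ^ (Q - 1) < R ^ (Q - 1)) :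
    ∃ ω : {i : ZMod Q × Pw Q lam // i.1 ≠ 0} → Finset (Fin N),
      (∀ i, ω i ∈ powersetCard (N - C) (univ : Finset (Fin N))) ∧
      ∀ S : Finset (ZMod Q × Pw Q lam), (∀ p, (LL Q lam 0 p univ ∩ S).card ≤ C) →
        ∃ i, (LL Q lam i.1.1 i.1.2 (TT N (ω i)) ∩ S).card = 0 ∨
          C < (LL Q lam i.1.1 i.1.2 (TT N (ω i)) ∩ S).card := by
  by_contra hcon
  push Not at hcon
  set I := {i : ZMod Q × Pw Q lam // i.1 ≠ 0} with hI
  set O := powersetCard (N - C) (univ : Finset (Fin N)) with hO
  have hOc : O.card = R := by rw [hO, card_powersetCard, card_univ, Fintype.card_fin, hR]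
  set 𝒮 := univ.filter (fun S : Finset (ZMod Q × Pw Q lam) =>
      ∀ p, (LL Q lam 0 p univ ∩ S).card ≤ C) with h𝒮
  let ok : Finset (ZMod Q × Pw Q lam) → I → Finset (Fin N) → Prop := fun S i J =>
    (LL Q lam i.1.1 i.1.2 (TT N J) ∩ S).card ≠ 0 ∧ (LL Q lam i.1.1 i.1.2 (TT N J) ∩ S).card ≤ C
  have hcover : Fintype.piFinset (fun _ : I => O) ⊆
      𝒮.biUnion (fun S => Fintype.piFinset (fun i : I => O.filter (ok S i))) := by
    intro ω hω
    rw [Fintype.mem_piFinset] at hω
    obtain ⟨S, hS1, hS2⟩ := hcon ω hω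
    rw [mem_biUnion]
    refine ⟨S, by rw [h𝒮, mem_filter]; exact ⟨mem_univ _, hS1⟩, ?_⟩
    rw [Fintype.mem_piFinset]
    intro i
    rw [mem_filter]
    exact ⟨hω i, hS2 i⟩
  have hok : ∀ S (i : I), (O.filter (ok S i)).card ≤ R - 1 := by
    intro S i
    obtain ⟨J, hJ, hJ2⟩ := exists_bad hN i.1.1 i.1.2 S
    have : O.filter (ok S i) ⊆ O.erase J := by
      intro J' hJ'
      rw [mem_filter] at hJ'
      rw [mem_erase]
      refine ⟨?_, hJ'.1⟩
      rintro rfl
      rcases hJ2 with h | h
      · exact hJ'.2.1 h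
      · exact absurd hJ'.2.2 (by omega)
    calc _ ≤ (O.erase J).card := card_le_card this
      _ = R - 1 := by rw [card_erase_of_mem hJ, hOc]
  have hIc : Fintype.card I = (Q - 1) * Fintype.card (Pw Q lam) := by
    have e : I ≃ {x : ZMod Q // x ≠ 0} × Pw Q lam :=
      { toFun := fun i => (⟨i.1.1, i.2⟩, i.1.2)
        invFun := fun w => ⟨(w.1.1, w.2), w.1.2⟩
        left_inv := fun _ => rfl
        right_inv := fun _ => rfl }
    rw [Fintype.card_congr e, Fintype.card_prod]
    congr 1
    rw [Fintype.card_subtype_compl, ZMod.card, Fintype.card_subtype_eq]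
  have h1 : R ^ Fintype.card I ≤ ((Q + 1) ^ C) ^ (Fintype.card (Pw Q lam)) *
      (R - 1) ^ Fintype.card I := by
    calc R ^ Fintype.card I = (Fintype.piFinset (fun _ : I => O)).card := by
          rw [Fintype.card_piFinset, prod_const, card_univ, hOc]
      _ ≤ _ := card_le_card hcover
      _ ≤ ∑ S ∈ 𝒮, (Fintype.piFinset (fun i : I => O.filter (ok S i))).card := card_biUnion_le
      _ ≤ ∑ _S ∈ 𝒮, (R - 1) ^ Fintype.card I := by
          apply sum_le_sum
          intro S _
          rw [Fintype.card_piFinset]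
          calc ∏ i : I, (O.filter (ok S i)).card ≤ ∏ _i : I, (R - 1) :=
                prod_le_prod' fun i _ => hok S i
            _ = _ := by rw [prod_const, card_univ]
      _ = 𝒮.card * (R - 1) ^ Fintype.card I := by rw [sum_const, smul_eq_mul]
      _ ≤ _ := Nat.mul_le_mul_right _ (count_small C)
  rw [hIc, pow_mul, pow_mul, ← mul_pow] at h1
  have hP : Fintype.card (Pw Q lam) ≠ 0 := Fintype.card_ne_zero
  have h2 := Nat.pow_lt_pow_left hnum hP
  omega

end constr

end K3h83.BT
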