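import Mathlib

/-!
# Numerical estimates
-/

set_option autoImplicit false

namespace K3h83.BT

open Filter Topology

/-- for `C ≤ log Q / (2 K) + 1` and `R ≤ 2 ^ (K C)`: `(Q + 1)^C (R - 1)^(Q-1) < R^(Q-1)` -/
theorem num_key (K : ℕ) (hK : 3 ≤ K) : ∃ Q₀ : ℕ, ∀ Q C R : ℕ, Q₀ ≤ Q →
    (C : ℝ) ≤ 1 / (2 * K) * Real.log Q + 1 → 1 ≤ R → R ≤ 2 ^ (K * C) →
    (Q + 1) ^ C * (R - 1) ^ (Q - 1) < R ^ (Q - 1) := by
  have hK0 : (0 : ℝ) < K := by positivity
  have h1 : ∀ᶠ x : ℝ in atTop, (Real.log x + 1) * (Real.log x + 1) * (2 ^ K * x ^ (1 / 2 : ℝ)) * 2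
      ≤ x := by
    have h2 : (fun x : ℝ => (Real.log x + 1) * (Real.log x + 1) * (2 ^ K * x ^ (1 / 2 : ℝ)) * 2)
        =o[atTop] (fun x : ℝ => x ^ (1 / 8 : ℝ) * x ^ (1 / 8 : ℝ) * x ^ (1 / 2 : ℝ)) := by
      have h3 : (fun x : ℝ => Real.log x + 1) =o[atTop] (fun x : ℝ => x ^ (1 / 8 : ℝ)) := by
        apply (isLittleO_log_rpow_atTop (by norm_num)).add
        exact Asymptotics.isLittleO_const_left.2 (Or.inr (tendsto_norm_atTop_atTop.comp
          (tendsto_rpow_atTop (by norm_num))))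
      have h4 : (fun x : ℝ => (2 ^ K * x ^ (1 / 2 : ℝ)) * 2) =O[atTop]
          (fun x : ℝ => x ^ (1 / 2 : ℝ)) := by
        have : (fun x : ℝ => (2 ^ K * x ^ (1 / 2 : ℝ)) * 2) =
            (fun x : ℝ => (2 ^ K * 2) * x ^ (1 / 2 : ℝ)) := by
          funext x; ring
        rw [this]
        exact Asymptotics.isBigO_const_mul_self _ _ _
      have h5 := (h3.mul h3).mul_isBigO h4
      refine h5.congr_left (fun x => ?_)
      ring
    have h6 : ∀ᶠ x : ℝ in atTop, x ^ (1 / 8 : ℝ) * x ^ (1 / 8 : ℝ) * x ^ (1 / 2 : ℝ) ≤ x := by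
      filter_upwards [eventually_ge_atTop 1] with x hx
      rw [← Real.rpow_add (by linarith), ← Real.rpow_add (by linarith)]
      calc x ^ ((1 / 8 : ℝ) + 1 / 8 + 1 / 2) ≤ x ^ (1 : ℝ) :=
            Real.rpow_le_rpow_of_exponent_le hx (by norm_num)
        _ = x := Real.rpow_one x
    filter_upwards [h2.def (show (0 : ℝ) < 1 by norm_num), h6, eventually_ge_atTop 1] with x a b c
    rw [one_mul] at a
    have hx0 : (0 : ℝ) ≤ x := by linarith
    calc _ ≤ ‖(Real.log x + 1) * (Real.log x + 1) * (2 ^ K * x ^ (1 / 2 : ℝ)) * 2‖ :=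
          Real.le_norm_self _
      _ ≤ _ := a
      _ = x ^ (1 / 8 : ℝ) * x ^ (1 / 8 : ℝ) * x ^ (1 / 2 : ℝ) := by
          rw [Real.norm_of_nonneg]
          positivity
      _ ≤ x := b
  obtain ⟨x₀, hx₀⟩ := eventually_atTop.1 h1
  obtain ⟨Q₁, hQ₁⟩ := exists_nat_ge x₀
  refine ⟨max Q₁ 3, fun Q C R hQ hC hR1 hR => ?_⟩
  have hQ1 : x₀ ≤ Q := hQ₁.trans (by exact_mod_cast (le_max_left _ _).trans hQ)
  have hQ3 : 3 ≤ Q := (le_max_right _ _).trans hQ
  have hQ3' : (3 : ℝ) ≤ Q := by exact_mod_cast hQ3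
  have hQ0 : (0 : ℝ) < Q := by linarith
  have hmain := hx₀ Q hQ1
  have hlogpos : 0 < Real.log Q := Real.log_pos (by linarith)
  -- bound for `R`
  have hKC : (K : ℝ) * C ≤ 1 / 2 * Real.log Q + K := by
    calc (K : ℝ) * C ≤ K * (1 / (2 * K) * Real.log Q + 1) := mul_le_mul_of_nonneg_left hC hK0.le
      _ = 1 / 2 * Real.log Q + K := by field_simp
  have hRr : (R : ℝ) ≤ 2 ^ K * (Q : ℝ) ^ (1 / 2 : ℝ) := by
    calc (R : ℝ) ≤ (2 : ℝ) ^ (K * C) := by exact_mod_cast hR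
      _ = (2 : ℝ) ^ ((K : ℝ) * C) := by
          rw [← Real.rpow_natCast]; push_cast; rfl
      _ ≤ (2 : ℝ) ^ (1 / 2 * Real.log Q + K) :=
          Real.rpow_le_rpow_of_exponent_le (by norm_num) hKC
      _ = 2 ^ K * (2 : ℝ) ^ (1 / 2 * Real.log Q) := by
          rw [Real.rpow_add (by norm_num), Real.rpow_natCast]; ring
      _ ≤ 2 ^ K * (Q : ℝ) ^ (1 / 2 : ℝ) := by
          apply mul_le_mul_of_nonneg_left _ (by positivity)
          rw [Real.rpow_def_of_pos (by norm_num), Real.rpow_def_of_pos hQ0]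
          apply Real.exp_le_exp.2
          have : Real.log 2 ≤ 1 := by
            have := Real.log_two_lt_d9
            linarith
          nlinarith
  have hR0 : (0 : ℝ) < R := by exact_mod_cast hR1
  -- the logarithm of `Q + 1`
  have hlog1 : Real.log (Q + 1) ≤ Real.log Q + 1 := by
    have h3 : Real.log (Q + 1) - Real.log Q = Real.log ((Q + 1) / Q) := by
      rw [Real.log_div (by linarith) hQ0.ne']
    have h4 : Real.log (((Q : ℝ) + 1) / Q) ≤ (Q + 1) / Q - 1 :=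
      Real.log_le_sub_one_of_pos (by positivity)
    have h5 : ((Q : ℝ) + 1) / Q - 1 ≤ 1 := by
      rw [div_sub_one hQ0.ne', add_sub_cancel_left, div_le_one hQ0]
      linarith
    linarith
  have hlog0 : 0 < Real.log (Q + 1) := Real.log_pos (by linarith)
  have hC1 : (C : ℝ) ≤ Real.log Q + 1 := by
    have : 1 / (2 * (K : ℝ)) * Real.log Q ≤ 1 * Real.log Q := by
      apply mul_le_mul_of_nonneg_right _ hlogpos.le
      rw [div_le_one (by positivity)]
      have : (3 : ℝ) ≤ K := by exact_mod_cast hK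
      linarith
    linarith
  -- the main inequality
  have hexp : (C : ℝ) * Real.log (Q + 1) < (Q - 1) / R := by
    rw [lt_div_iff₀ hR0]
    have h7 : (C : ℝ) * Real.log (Q + 1) * R * 2 ≤ Q := by
      calc (C : ℝ) * Real.log (Q + 1) * R * 2
          ≤ (Real.log Q + 1) * (Real.log Q + 1) * (2 ^ K * (Q : ℝ) ^ (1 / 2 : ℝ)) * 2 := by
            gcongr
        _ ≤ Q := hmain
    linarith
  -- convert
  have hcast : (((Q + 1) ^ C * (R - 1) ^ (Q - 1) : ℕ) : ℝ) < ((R ^ (Q - 1) : ℕ) : ℝ) := by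
    push_cast [Nat.cast_sub hR1]
    have h8 : ((R : ℝ) - 1) ^ (Q - 1) ≤ (R : ℝ) ^ (Q - 1) * Real.exp (-((Q - 1) / R)) := by
      have h9 : (R : ℝ) - 1 ≤ R * Real.exp (-(1 / R)) := by
        have := Real.add_one_le_exp (-(1 / (R : ℝ)))
        calc (R : ℝ) - 1 = R * (-(1 / (R : ℝ)) + 1) := by field_simp; ring
          _ ≤ _ := mul_le_mul_of_nonneg_left this hR0.le
      have h10 : (0 : ℝ) ≤ (R : ℝ) - 1 := by
        have : (1 : ℝ) ≤ R := by exact_mod_cast hR1
        linarith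
      calc ((R : ℝ) - 1) ^ (Q - 1) ≤ (R * Real.exp (-(1 / R))) ^ (Q - 1) :=
            pow_le_pow_left₀ h10 h9 _
        _ = (R : ℝ) ^ (Q - 1) * Real.exp (-((Q - 1) / R)) := by
            rw [mul_pow, ← Real.exp_nat_mul]
            congr 2
            rw [Nat.cast_sub (by omega : 1 ≤ Q)]
            push_cast
            ring
    have h11 : ((Q : ℝ) + 1) ^ C = Real.exp (C * Real.log (Q + 1)) := by
      rw [Real.exp_nat_mul, Real.exp_log (by linarith)]
    calc ((Q : ℝ) + 1) ^ C * ((R : ℝ) - 1) ^ (Q - 1)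
        ≤ Real.exp (C * Real.log (Q + 1)) * ((R : ℝ) ^ (Q - 1) * Real.exp (-((Q - 1) / R))) := by
          rw [h11]
          exact mul_le_mul_of_nonneg_left h8 (Real.exp_pos _).le
      _ = (R : ℝ) ^ (Q - 1) * Real.exp (C * Real.log (Q + 1) - (Q - 1) / R) := by
          rw [Real.exp_sub, Real.exp_neg]
          field_simp
      _ < (R : ℝ) ^ (Q - 1) * 1 := by
          apply mul_lt_mul_of_pos_left _ (by positivity)
          rw [Real.exp_lt_one_iff]
          linarith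
      _ = _ := mul_one _
  exact_mod_cast hcast

end K3h83.BT
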