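import Pool.Agent.K3h83.BT.Neg
import Pool.Agent.K3h83.BT.Num

/-!
# No bounded transversals when the sets are small
-/

set_option autoImplicit false

namespace K3h83.BT

open Finset Filter

theorem size_num (K : ℕ) : ∃ Q₀ : ℕ, ∀ Q : ℕ, Q₀ ≤ Q →
    (K : ℝ) * ((K - 1) * (1 / (2 * K) * Real.log Q + 1) + 1) ≤ Q := by
  have h1 : (fun x : ℝ => (K : ℝ) * ((K - 1) * (1 / (2 * K) * Real.log x + 1) + 1)) =o[atTop]
      (fun x : ℝ => x) := by
    have h2 : (fun x : ℝ => Real.log x) =o[atTop] (fun x : ℝ => x) := by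
      simpa using isLittleO_log_rpow_atTop (r := 1) (by norm_num)
    have h3 : ∀ c : ℝ, (fun _ : ℝ => c) =o[atTop] (fun x : ℝ => x) := fun c =>
      Asymptotics.isLittleO_const_left.2 (Or.inr tendsto_norm_atTop_atTop)
    exact (((((h2.const_mul_left _).add (h3 1)).const_mul_left _).add (h3 1)).const_mul_left _)
  have h4 := (h1.def (show (0 : ℝ) < 1 by norm_num)).and (eventually_ge_atTop (0 : ℝ))
  obtain ⟨x₀, hx₀⟩ := eventually_atTop.1 h4
  obtain ⟨Q₀, hQ₀⟩ := exists_nat_ge x₀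
  refine ⟨Q₀, fun Q hQ => ?_⟩
  have h5 := hx₀ Q (hQ₀.trans (by exact_mod_cast hQ))
  calc _ ≤ ‖(K : ℝ) * ((K - 1) * (1 / (2 * K) * Real.log Q + 1) + 1)‖ := Real.le_norm_self _
    _ ≤ 1 * ‖(Q : ℝ)‖ := h5.1
    _ = Q := by rw [one_mul, Real.norm_of_nonneg h5.2]

open Classical in
/-- **Small sets.** -/
theorem neg (lam : ℕ) (hl : 1 ≤ lam) (c : ℝ) (hlt : c ^ 2 < lam) :
    ∃ δ : ℝ, 0 < δ ∧ ∀ n₀ : ℕ, ∃ (n m : ℕ) (A : Fin m → Finset (Fin n)), n₀ ≤ n ∧
      (∀ k, c * √(n : ℝ) < (A k).card) ∧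
      (∀ k l, k ≠ l → (A k ∩ A l).card ≤ lam) ∧
      ∀ S : Finset (Fin n), (∀ k, 1 ≤ (A k ∩ S).card) →
        ∃ k, δ * Real.log n < ((A k ∩ S).card : ℝ) := by
  have hlam0 : (0 : ℝ) < lam := by exact_mod_cast hl
  have hsq : c < √(lam : ℝ) := by
    rcases lt_or_ge c 0 with h | h
    · exact h.trans_le (Real.sqrt_nonneg _)
    · exact Real.lt_sqrt_of_sq_lt hlt
  have hs0 : 0 < √(lam : ℝ) := Real.sqrt_pos.2 hlam0
  -- the parameter `K`
  obtain ⟨K, hK3, hK⟩ : ∃ K : ℕ, 3 ≤ K ∧ c < √(lam : ℝ) * (1 - 2 / K) := by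
    obtain ⟨K₀, hK₀⟩ := exists_nat_gt (2 * √(lam : ℝ) / (√(lam : ℝ) - c))
    have hd : 0 < √(lam : ℝ) - c := by linarith
    refine ⟨max K₀ 3, le_max_right _ _, ?_⟩
    have h1 : 2 * √(lam : ℝ) / (√(lam : ℝ) - c) < ((max K₀ 3 : ℕ) : ℝ) :=
      lt_of_lt_of_le hK₀ (by exact_mod_cast le_max_left _ _)
    rw [div_lt_iff₀ hd] at h1
    have h2 : (0 : ℝ) < ((max K₀ 3 : ℕ) : ℝ) := by positivity
    have h3 : √(lam : ℝ) * (2 / ((max K₀ 3 : ℕ) : ℝ)) < √(lam : ℝ) - c := by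
      rw [mul_div_assoc', div_lt_iff₀ h2]
      linarith
    linarith
  have hK0 : (0 : ℝ) < K := by positivity
  have hK3' : (3 : ℝ) ≤ K := by exact_mod_cast hK3
  obtain ⟨Q₁, hQ₁⟩ := num_key K hK3
  obtain ⟨Q₂, hQ₂⟩ := size_num K
  refine ⟨1 / (4 * K), by positivity, fun n₀ => ?_⟩
  obtain ⟨Q, hQp, hQgt, hQmod⟩ := Nat.exists_prime_gt_modEq_one (k := lam)
    (Q₁ + Q₂ + n₀ + lam + K) (by omega)
  have : Fact Q.Prime := ⟨hQp⟩
  have hlQ : lam < Q := by omega
  have hdvd : lam ∣ Q - 1 := (Nat.modEq_iff_dvd' (by omega)).1 hQmod.symm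
  have hQ0 : (0 : ℝ) < Q := by exact_mod_cast hQp.pos
  have hQ1 : (1 : ℝ) ≤ Q := by exact_mod_cast hQp.one_le
  set n := Fintype.card (ZMod Q × Pw Q lam) with hn
  have hnQ : n = Q * ((Q - 1) / lam) := by
    rw [hn, Fintype.card_prod, ZMod.card, card_Pw Q lam hdvd]
  have hPpos : 0 < Fintype.card (Pw Q lam) := Fintype.card_pos
  have hnge : Q ≤ n := by
    rw [hn, Fintype.card_prod, ZMod.card]
    exact Nat.le_mul_of_pos_right _ hPpos
  have hnle : (n : ℝ) * lam ≤ (Q : ℝ) ^ 2 := by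
    have h1 : n * lam ≤ Q ^ 2 := by
      rw [hnQ, mul_assoc, Nat.div_mul_cancel hdvd, sq]
      exact Nat.mul_le_mul_left _ (Nat.sub_le _ _)
    exact_mod_cast h1
  have hnle2 : (n : ℝ) ≤ (Q : ℝ) ^ 2 := by
    have h1 : (1 : ℝ) ≤ lam := by exact_mod_cast hl
    have h2 : (0 : ℝ) ≤ n := Nat.cast_nonneg _
    nlinarith
  have hn1 : (1 : ℝ) ≤ n := by
    have : (Q : ℝ) ≤ n := by exact_mod_cast hnge
    linarith
  have hlogn : Real.log n ≤ 2 * Real.log Q := by
    calc Real.log n ≤ Real.log ((Q : ℝ) ^ 2) := Real.log_le_log (by linarith) hnle2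
      _ = 2 * Real.log Q := by rw [Real.log_pow]; norm_num
  have hlogn0 : 0 ≤ Real.log n := Real.log_nonneg hn1
  set C := ⌊1 / (4 * K) * Real.log n⌋₊ + 1 with hC
  have hCup : (C : ℝ) ≤ 1 / (2 * K) * Real.log Q + 1 := by
    have h1 : ((⌊1 / (4 * K) * Real.log n⌋₊ : ℕ) : ℝ) ≤ 1 / (4 * K) * Real.log n :=
      Nat.floor_le (by positivity)
    have h2 : 1 / (4 * (K : ℝ)) * Real.log n ≤ 1 / (4 * K) * (2 * Real.log Q) :=
      mul_le_mul_of_nonneg_left hlogn (by positivity)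
    have h3 : 1 / (4 * (K : ℝ)) * (2 * Real.log Q) = 1 / (2 * K) * Real.log Q := by
      field_simp; ring
    rw [hC]; push_cast
    linarith
  have hClow : 1 / (4 * K) * Real.log n < C := by
    rw [hC]; push_cast
    exact Nat.lt_floor_add_one _
  have hC1 : 1 ≤ C := by omega
  set N := K * C with hN
  have hNge : 2 * C + 1 ≤ N := by
    rw [hN]; nlinarith
  have hN0 : 0 < N := by omega
  set R := N.choose (N - C) with hR
  have hR1 : 1 ≤ R := Nat.choose_pos (Nat.sub_le _ _)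
  have hR2 : R ≤ 2 ^ (K * C) := Nat.choose_le_two_pow _ _
  obtain ⟨ω, hω1, hω2⟩ := exists_choice (Q := Q) (lam := lam) hNge hR.symm
    (hQ₁ Q C R (by omega) hCup hR1 hR2)
  -- the family
  let F : ZMod Q × Pw Q lam → Finset (ZMod Q × Pw Q lam) := fun i =>
    if h : i.1 ≠ 0 then LL Q lam i.1 i.2 (TT N (ω ⟨i, h⟩)) else LL Q lam i.1 i.2 univ
  have hFex : ∀ i, ∃ T, F i = LL Q lam i.1 i.2 T ∧
      ((1 - 1 / (K : ℝ)) * Q - (K - 1) * C ≤ T.card) := by
    intro i
    by_cases h : i.1 ≠ 0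
    · refine ⟨TT N (ω ⟨i, h⟩), by simp only [F]; rw [dif_pos h], ?_⟩
      have h1 := TT_card (Q := Q) N (ω ⟨i, h⟩)
      rw [(mem_powersetCard.1 (hω1 ⟨i, h⟩)).2] at h1
      have h2 : (((N - C) * (Q / N) : ℕ) : ℝ) ≤ ((TT (Q := Q) N (ω ⟨i, h⟩)).card : ℝ) := by
        exact_mod_cast h1
      have h3 : ((Q : ℝ) / N - 1) ≤ ((Q / N : ℕ) : ℝ) := by
        have h4 : (Q : ℝ) / N < ((Q / N : ℕ) : ℝ) + 1 := by
          rw [div_lt_iff₀ (by exact_mod_cast hN0)]
          have := Nat.lt_div_mul_add (a := Q) hN0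
          have h5 : (Q : ℝ) < ((Q / N * N + N : ℕ) : ℝ) := by exact_mod_cast this
          push_cast at h5 ⊢
          linarith
        linarith
      have h6 : ((N - C : ℕ) : ℝ) = (K - 1) * C := by
        rw [Nat.cast_sub (by omega), hN]; push_cast; ring
      have hCr : (1 : ℝ) ≤ C := by exact_mod_cast hC1
      calc (1 - 1 / (K : ℝ)) * Q - (K - 1) * C = (K - 1) * C * ((Q : ℝ) / N - 1) := by
            rw [hN]; push_cast; field_simp
        _ ≤ (K - 1) * C * ((Q / N : ℕ) : ℝ) := by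
            apply mul_le_mul_of_nonneg_left h3
            apply mul_nonneg <;> linarith
        _ = (((N - C) * (Q / N) : ℕ) : ℝ) := by rw [Nat.cast_mul, h6]
        _ ≤ _ := h2
    · refine ⟨univ, by simp only [F]; rw [dif_neg h], ?_⟩
      rw [card_univ, ZMod.card]
      have h1 : (0 : ℝ) ≤ 1 / K * Q := by positivity
      have h2 : (0 : ℝ) ≤ (K - 1) * C := by
        apply mul_nonneg <;> [linarith; exact Nat.cast_nonneg _]
      linarith
  have hsize : ∀ i, c * √(n : ℝ) < (F i).card := by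
    intro i
    obtain ⟨T, hT1, hT2⟩ := hFex i
    have h1 : (T.card : ℝ) ≤ (F i).card + 1 := by
      rw [hT1]
      exact_mod_cast LL_card i.1 i.2 T
    have h2 : √(n : ℝ) * √(lam : ℝ) ≤ Q := by
      rw [← Real.sqrt_mul (Nat.cast_nonneg n)]
      exact Real.sqrt_le_iff.2 ⟨hQ0.le, hnle⟩
    have h3 : c * √(n : ℝ) < (1 - 2 / K) * Q := by
      have h4 : 0 < √(n : ℝ) := Real.sqrt_pos.2 (by linarith)
      calc c * √(n : ℝ) < √(lam : ℝ) * (1 - 2 / K) * √(n : ℝ) :=
            mul_lt_mul_of_pos_right hK h4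
        _ = (1 - 2 / K) * (√(n : ℝ) * √(lam : ℝ)) := by ring
        _ ≤ (1 - 2 / K) * Q := by
            apply mul_le_mul_of_nonneg_left h2
            rw [sub_nonneg, div_le_one hK0]
            linarith
    have h5 := hQ₂ Q (by omega)
    have h6 : (K : ℝ) * ((K - 1) * C + 1) ≤ Q := by
      calc (K : ℝ) * ((K - 1) * C + 1) ≤ K * ((K - 1) * (1 / (2 * K) * Real.log Q + 1) + 1) := by
            apply mul_le_mul_of_nonneg_left _ hK0.le
            have : (K - 1 : ℝ) * C ≤ (K - 1) * (1 / (2 * K) * Real.log Q + 1) :=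
              mul_le_mul_of_nonneg_left hCup (by linarith)
            linarith
        _ ≤ Q := h5
    have h7 : (K - 1 : ℝ) * C + 1 ≤ Q / K := by
      rw [le_div_iff₀ hK0]; linarith
    have h8 : (1 - 2 / (K : ℝ)) * Q = (1 - 1 / K) * Q - Q / K := by ring
    linarith
  have hinter : ∀ i j, i ≠ j → (F i ∩ F j).card ≤ lam := by
    intro i j hij
    obtain ⟨T, hT, _⟩ := hFex i
    obtain ⟨T', hT', _⟩ := hFex j
    rw [hT, hT']
    exact LL_inter (by omega) hlQ (by simpa using hij) _ _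
  have hbad : ∀ S : Finset (ZMod Q × Pw Q lam), (∀ i, 1 ≤ (F i ∩ S).card) →
      ∃ i, 1 / (4 * K) * Real.log n < ((F i ∩ S).card : ℝ) := by
    intro S hS
    by_cases h : ∀ p, (LL Q lam 0 p univ ∩ S).card ≤ C
    · obtain ⟨i, hi⟩ := hω2 S h
      have e : F i.1 = LL Q lam i.1.1 i.1.2 (TT N (ω i)) := by
        simp only [F]; rw [dif_pos i.2]
      rcases hi with hi | hi
      · have := hS i.1
        rw [e, hi] at this
        omega
      · refine ⟨i.1, ?_⟩
        rw [e]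
        refine hClow.trans ?_
        exact_mod_cast hi
    · push Not at h
      obtain ⟨p, hp⟩ := h
      refine ⟨(0, p), ?_⟩
      have e : F (0, p) = LL Q lam 0 p univ := by
        simp only [F]; rw [dif_neg (by simp)]
      rw [e]
      refine hClow.trans ?_
      exact_mod_cast hp
  -- transport
  let e := Fintype.equivFin (ZMod Q × Pw Q lam)
  have key : ∀ (i : ZMod Q × Pw Q lam) (S : Finset (Fin n)),
      ((F i).map e.toEmbedding ∩ S).card = (F i ∩ S.map e.symm.toEmbedding).card := by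
    intro i S
    have : (F i).map e.toEmbedding ∩ S = (F i ∩ S.map e.symm.toEmbedding).map e.toEmbedding := by
      rw [map_inter]
      congr 1
      ext x
      simp
    rw [this, card_map]
  refine ⟨n, n, fun k => (F (e.symm k)).map e.toEmbedding, by omega, ?_, ?_, ?_⟩
  · intro k
    rw [card_map]
    exact hsize _
  · intro k l hkl
    rw [← map_inter, card_map]
    exact hinter _ _ (fun h => hkl (e.symm.injective h))
  · intro S hS
    obtain ⟨i, hi⟩ := hbad (S.map e.symm.toEmbedding) (by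
      intro i
      have := hS (e i)
      rw [key, Equiv.symm_apply_apply] at this
      exact this)
    refine ⟨e i, ?_⟩
    rw [key, Equiv.symm_apply_apply]
    exact hi

end K3h83.BT
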