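import Pool.Agent.K3h83.BT.Round

/-!
# Bounded transversals when the sets are large: `|A| > c₁ √n`, `|A ∩ B| ≤ λ`, `c₁² > λ`
-/

set_option autoImplicit false

namespace K3h83.BT

open Finset

variable {n m : ℕ}

/-- degree of a point -/
def dg (A : Fin m → Finset (Fin n)) (x : Fin n) : ℕ := (univ.filter (fun k => x ∈ A k)).card

theorem sum_dg (A : Fin m → Finset (Fin n)) (T : Finset (Fin n)) :
    ∑ x ∈ T, dg A x = ∑ k, (A k ∩ T).card := by
  unfold dg
  simp_rw [card_filter]
  rw [sum_comm]
  apply sum_congr rfl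
  intro k _
  rw [← sum_filter, card_eq_sum_ones]
  apply sum_congr _ fun _ _ => rfl
  ext v; simp [and_comm]

theorem sum_dg_sq (A : Fin m → Finset (Fin n)) :
    ∑ x, dg A x ^ 2 = ∑ k, ∑ l, (A k ∩ A l).card := by
  have h1 : ∀ x, dg A x ^ 2 = ∑ k, if x ∈ A k then dg A x else 0 := by
    intro x
    rw [← sum_filter, sum_const, smul_eq_mul, sq]
    rfl
  simp_rw [h1]
  rw [sum_comm]
  apply sum_congr rfl
  intro k _
  rw [← sum_filter]
  have : univ.filter (fun x => x ∈ A k) = A k := by ext; simp
  rw [this, sum_dg]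
  apply sum_congr rfl
  intro l _
  rw [inter_comm]

/-- The number of sets is `O(√n)`. -/
theorem few_sets (A : Fin m → Finset (Fin n)) (lam : ℕ) (c : ℝ) (hc : 0 < c)
    (hlam : (lam : ℝ) < c ^ 2)
    (hA : ∀ k, c * √(n : ℝ) < (A k).card)
    (hI : ∀ k l, k ≠ l → (A k ∩ A l).card ≤ lam) :
    (m : ℝ) ≤ c / (c ^ 2 - lam) * √(n : ℝ) := by
  by_contra hcon
  push Not at hcon
  set q : ℝ := √(n : ℝ) with hq
  have hq0 : 0 ≤ q := Real.sqrt_nonneg _
  have hqq : q * q = n := Real.mul_self_sqrt (Nat.cast_nonneg n)
  set s : ℝ := ∑ k, ((A k).card : ℝ) with hs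
  have hd : 0 < c ^ 2 - lam := by linarith
  -- lower bound for `s`
  have hs0 : (m : ℝ) * (c * q) ≤ s := by
    calc (m : ℝ) * (c * q) = ∑ _k : Fin m, c * q := by simp
      _ ≤ s := sum_le_sum fun k _ => (hA k).le
  -- Cauchy-Schwarz
  have hcs : s ^ 2 ≤ n * (s + lam * m ^ 2) := by
    have h1 : s = ∑ x : Fin n, (dg A x : ℝ) := by
      have := sum_dg A univ
      simp only [inter_univ] at this
      rw [hs]
      exact_mod_cast this.symm
    have h2 : (∑ x : Fin n, (dg A x : ℝ) * 1) ^ 2 ≤
        (∑ x : Fin n, (dg A x : ℝ) ^ 2) * ∑ _x : Fin n, (1 : ℝ) ^ 2 :=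
      sum_mul_sq_le_sq_mul_sq _ _ _
    have h3 : ∑ x : Fin n, (dg A x : ℝ) ^ 2 ≤ s + lam * m ^ 2 := by
      have e : ∑ x : Fin n, (dg A x : ℝ) ^ 2 = ∑ k, ∑ l, ((A k ∩ A l).card : ℝ) := by
        exact_mod_cast sum_dg_sq A
      rw [e]
      have e2 : ∀ k : Fin m, ∑ l, ((A k ∩ A l).card : ℝ) ≤ (A k).card + lam * m := by
        intro k
        calc ∑ l, ((A k ∩ A l).card : ℝ) ≤ ∑ l, ((if k = l then ((A k).card : ℝ) else 0) + lam) := by
              apply sum_le_sum
              intro l _
              by_cases hkl : k = l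
              · subst hkl
                simp
              · have := hI k l hkl
                simp only [hkl, if_false, zero_add]
                exact_mod_cast this
          _ = (A k).card + lam * m := by
              rw [sum_add_distrib, sum_ite_eq]
              simp [mul_comm]
      calc ∑ k, ∑ l, ((A k ∩ A l).card : ℝ) ≤ ∑ k : Fin m, (((A k).card : ℝ) + lam * m) :=
            sum_le_sum fun k _ => e2 k
        _ = s + lam * m ^ 2 := by
            rw [sum_add_distrib]; simp [hs]; ring
    simp only [mul_one, one_pow, sum_const, card_univ, Fintype.card_fin, nsmul_eq_mul] at h2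
    rw [← h1] at h2
    calc s ^ 2 ≤ (∑ x : Fin n, (dg A x : ℝ) ^ 2) * n := h2
      _ ≤ (s + lam * m ^ 2) * n := mul_le_mul_of_nonneg_right h3 (Nat.cast_nonneg n)
      _ = _ := by ring
  -- conclusion
  have hm : c * q < m * (c ^ 2 - lam) := by
    rw [div_mul_eq_mul_div, div_lt_iff₀ hd] at hcon
    exact hcon
  have hlam0 : (0 : ℝ) ≤ lam := Nat.cast_nonneg _
  have hm0 : (0 : ℝ) ≤ m := Nat.cast_nonneg _
  -- `m c q ≥ q²`
  have h5 : q * q ≤ m * (c * q) := by
    have : q ≤ m * c := by
      have h6 : c * q < m * c ^ 2 := by nlinarith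
      have h7 : c * q < c * (m * c) := by nlinarith
      exact (lt_of_mul_lt_mul_left h7 hc.le).le
    nlinarith
  -- `s² - n s` is increasing
  have h6 : (m * (c * q)) ^ 2 - n * (m * (c * q)) ≤ s ^ 2 - n * s := by
    have h7 : 0 ≤ (s - m * (c * q)) * (s + m * (c * q) - n) := by
      apply mul_nonneg (by linarith)
      rw [← hqq]; nlinarith
    nlinarith
  have h8 : (m * (c * q)) ^ 2 - n * (m * (c * q)) ≤ n * (lam * m ^ 2) := by nlinarith
  rw [← hqq] at h8
  have h9 : q * q * (m * (m * (c ^ 2 - lam) - c * q)) ≤ 0 := by nlinarith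
  rcases hq0.eq_or_lt with h0 | h0
  · -- `n = 0`
    rw [← h0] at hcon hm
    have hm1 : 0 < m := by
      have : (0 : ℝ) < m := by linarith [hcon, mul_zero (c / (c ^ 2 - lam))]
      exact_mod_cast this
    have hn : n = 0 := by
      have : (n : ℝ) = 0 := by rw [← hqq, ← h0]; ring
      exact_mod_cast this
    subst hn
    have := hA ⟨0, hm1⟩
    have hE : A ⟨0, hm1⟩ = ∅ := by
      ext x; exact x.elim0
    rw [hE] at this
    simp only [card_empty, Nat.cast_zero] at this
    have := mul_nonneg hc.le hq0
    linarith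
  · have hmp : (0 : ℝ) < m := by
      have : 0 ≤ c / (c ^ 2 - lam) * q := by positivity
      linarith
    have : 0 < q * q * (m * (m * (c ^ 2 - lam) - c * q)) := by
      apply mul_pos (by positivity)
      apply mul_pos hmp
      linarith
    linarith

/-- **Bounded transversals for large sets.** -/
theorem pos (lam : ℕ) (c : ℝ) (hc : 0 < c) (hlam : (lam : ℝ) < c ^ 2) :
    ∃ C : ℕ, ∀ (n m : ℕ) (A : Fin m → Finset (Fin n)),
      (∀ k, c * √(n : ℝ) < (A k).card) →
      (∀ k l, k ≠ l → (A k ∩ A l).card ≤ lam) →
      ∃ S : Finset (Fin n), ∀ k, 1 ≤ (A k ∩ S).card ∧ (A k ∩ S).card ≤ C := by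
  classical
  set K : ℝ := c / (c ^ 2 - lam) with hK
  have hd : 0 < c ^ 2 - lam := by linarith
  have hK0 : 0 < K := by positivity
  have hlam0 : (0 : ℝ) ≤ lam := Nat.cast_nonneg _
  obtain ⟨D, hD⟩ := exists_nat_ge (2 * lam * K / c + 1)
  have hD1 : (1 : ℝ) ≤ D := le_trans (by
    have : 0 ≤ 2 * lam * K / c := by positivity
    linarith) hD
  have hD2 : 2 * lam * K ≤ D * c := by
    have h1 : 2 * lam * K / c ≤ D := by linarith
    rwa [div_le_iff₀ hc] at h1
  set M : ℝ := D + 1 with hM
  have hM0 : 0 < M := by positivity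
  obtain ⟨n₀, hn₀⟩ := exists_nat_ge ((2 * D * M / c) ^ 2)
  obtain ⟨C₁, hC₁⟩ := exists_nat_ge (M * (1 + 2 * lam * K / c) + D)
  refine ⟨max C₁ n₀, ?_⟩
  intro n m A hA hI
  set q : ℝ := √(n : ℝ) with hq
  have hq0 : 0 ≤ q := Real.sqrt_nonneg _
  have hA0 : ∀ k, (0 : ℝ) < (A k).card := fun k => lt_of_le_of_lt (by positivity) (hA k)
  rcases lt_or_ge n n₀ with hn | hn
  · -- few points
    refine ⟨univ, fun k => ?_⟩
    rw [inter_univ]
    constructor
    · have := hA0 k
      exact_mod_cast this
    · calc (A k).card ≤ (univ : Finset (Fin n)).card := card_le_card (subset_univ _)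
        _ = n := by simp
        _ ≤ max C₁ n₀ := hn.le.trans (le_max_right _ _)
  -- many points
  have hq1 : 2 * D * M / c ≤ q := by
    rw [hq]
    apply Real.le_sqrt_of_sq_le
    exact hn₀.trans (by exact_mod_cast hn)
  have hq1' : 2 * D * M ≤ c * q := by
    rw [div_le_iff₀ hc] at hq1
    linarith
  have hcq : 0 < c * q := lt_of_lt_of_le (by positivity) hq1'
  have hm : (m : ℝ) ≤ K * q := few_sets A lam c hc hlam hA hI
  -- points of small degree
  set A' : Fin m → Finset (Fin n) := fun k => (A k).filter (fun x => dg A x ≤ D) with hA'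
  have hmemA' : ∀ k x, x ∈ A' k ↔ x ∈ A k ∧ dg A x ≤ D := fun k x => by simp [hA']
  have hhalf : ∀ k, ((A k).card : ℝ) ≤ 2 * (A' k).card := by
    intro k
    set R := (A k).filter (fun x => ¬ dg A x ≤ D) with hR
    have h1 : (A' k).card + R.card = (A k).card := card_filter_add_card_filter_not _
    have h2 : R.card * (D + 1) + (A' k).card ≤ ∑ x ∈ A k, dg A x := by
      rw [← sum_filter_add_sum_filter_not (A k) (fun x => dg A x ≤ D)]
      have e1 : (A' k).card ≤ ∑ x ∈ (A k).filter (fun x => dg A x ≤ D), dg A x := by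
        rw [card_eq_sum_ones]
        apply sum_le_sum
        intro x hx
        have : x ∈ A k := (mem_filter.1 hx).1
        unfold dg
        rw [Nat.one_le_iff_ne_zero, Ne, card_eq_zero, ← Ne, ← nonempty_iff_ne_empty]
        exact ⟨k, by simp [this]⟩
      have e2 : R.card * (D + 1) ≤ ∑ x ∈ R, dg A x := by
        calc R.card * (D + 1) = ∑ _x ∈ R, (D + 1) := by simp
          _ ≤ _ := by
            apply sum_le_sum
            intro x hx
            have := (mem_filter.1 hx).2
            omega
      calc _ ≤ ∑ x ∈ R, dg A x + ∑ x ∈ (A k).filter (fun x => dg A x ≤ D), dg A x :=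
            Nat.add_le_add e2 e1
        _ = _ := by rw [hR]; ring
    have h3 : ∑ x ∈ A k, dg A x ≤ (A k).card + lam * m := by
      rw [sum_dg]
      calc ∑ l, (A l ∩ A k).card ≤ ∑ l, ((if l = k then (A k).card else 0) + lam) := by
            apply sum_le_sum
            intro l _
            by_cases hkl : l = k
            · subst hkl; simp
            · simp only [hkl, if_false, zero_add]
              exact hI l k hkl
        _ = (A k).card + lam * m := by
            rw [sum_add_distrib, sum_ite_eq']
            simp [mul_comm]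
    have h4 : R.card * D ≤ lam * m := by
      have : R.card * (D + 1) + (A' k).card ≤ (A k).card + lam * m := h2.trans h3
      rw [← h1] at this
      nlinarith
    have h4' : (R.card : ℝ) * D ≤ lam * m := by exact_mod_cast h4
    have h5 : (R.card : ℝ) * D * c ≤ lam * K * (A k).card := by
      calc (R.card : ℝ) * D * c ≤ lam * m * c := mul_le_mul_of_nonneg_right h4' hc.le
        _ ≤ lam * (K * q) * c := by gcongr
        _ = lam * K * (c * q) := by ring
        _ ≤ lam * K * (A k).card := by
            apply mul_le_mul_of_nonneg_left (hA k).le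
            positivity
    have h6 : (R.card : ℝ) * D * c * 2 ≤ (D * c) * (A k).card := by
      calc (R.card : ℝ) * D * c * 2 ≤ lam * K * (A k).card * 2 := by linarith
        _ = (2 * lam * K) * (A k).card := by ring
        _ ≤ _ := mul_le_mul_of_nonneg_right hD2 (Nat.cast_nonneg _)
    have h7 : (R.card : ℝ) * 2 ≤ (A k).card := by
      have hpos : 0 < (D : ℝ) * c := by positivity
      have : (D * c) * ((R.card : ℝ) * 2) ≤ (D * c) * (A k).card := by linarith
      exact le_of_mul_le_mul_left this hpos
    have h8 : ((A' k).card : ℝ) + R.card = (A k).card := by exact_mod_cast h1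
    linarith
  have hA'pos : ∀ k, c * q / 2 < (A' k).card := by
    intro k
    have := hhalf k
    have := hA k
    linarith
  have hA'0 : ∀ k, (0 : ℝ) < (A' k).card := fun k => lt_of_le_of_lt (by positivity) (hA'pos k)
  -- the fractional solution
  set y : Fin n → ℝ := fun x => ∑ k, if x ∈ A' k then M / (A' k).card else 0 with hy
  have hy0 : ∀ x, 0 ≤ y x := by
    intro x
    apply sum_nonneg
    intro k _
    split_ifs
    · exact div_nonneg hM0.le (Nat.cast_nonneg _)
    · exact le_rfl
  have hterm : ∀ k, M / (A' k).card ≤ 2 * M / (c * q) := by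
    intro k
    rw [div_le_div_iff₀ (hA'0 k) hcq]
    have := hA'pos k
    nlinarith
  have hdegA' : ∀ x, (univ.filter (fun k => x ∈ A' k)).card ≤ D := by
    intro x
    by_cases hx : dg A x ≤ D
    · refine le_trans (card_le_card ?_) hx
      intro k hk
      simp only [mem_filter, mem_univ, true_and] at hk ⊢
      exact ((hmemA' k x).1 hk).1
    · have : univ.filter (fun k => x ∈ A' k) = ∅ := by
        ext k
        simp [hmemA', hx]
      rw [this]; simp
  have hy1 : ∀ x, y x ≤ 1 := by
    intro x
    calc y x = ∑ k ∈ univ.filter (fun k => x ∈ A' k), M / (A' k).card := by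
          rw [hy, sum_filter]
      _ ≤ ∑ _k ∈ univ.filter (fun k => x ∈ A' k), 2 * M / (c * q) :=
          sum_le_sum fun k _ => hterm k
      _ = (univ.filter (fun k => x ∈ A' k)).card * (2 * M / (c * q)) := by
          rw [sum_const, nsmul_eq_mul]
      _ ≤ D * (2 * M / (c * q)) := by
          apply mul_le_mul_of_nonneg_right _ (by positivity)
          exact_mod_cast hdegA' x
      _ = 2 * D * M / (c * q) := by ring
      _ ≤ 1 := by
          rw [div_le_one hcq]
          exact hq1'
  have hysum : ∀ j, ∑ x ∈ A' j, y x = ∑ k, ((A' k ∩ A' j).card : ℝ) * (M / (A' k).card) := by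
    intro j
    rw [hy, sum_comm]
    apply sum_congr rfl
    intro k _
    rw [← sum_filter, sum_const, nsmul_eq_mul]
    congr 2
    have : (A' j).filter (fun x => x ∈ A' k) = A' k ∩ A' j := by
      ext x; simp [and_comm]
    rw [this]
  have hlow : ∀ j, M ≤ ∑ x ∈ A' j, y x := by
    intro j
    rw [hysum]
    calc M = ((A' j ∩ A' j).card : ℝ) * (M / (A' j).card) := by
          rw [inter_self, mul_div_cancel₀ _ (hA'0 j).ne']
      _ ≤ _ := by
          apply single_le_sum (f := fun k => ((A' k ∩ A' j).card : ℝ) * (M / (A' k).card)) _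
            (mem_univ j)
          intro k _
          have : 0 ≤ M / ((A' k).card : ℝ) := div_nonneg hM0.le (Nat.cast_nonneg _)
          positivity
  have hup : ∀ j, ∑ x ∈ A' j, y x ≤ M * (1 + 2 * lam * K / c) := by
    intro j
    rw [hysum]
    calc ∑ k, ((A' k ∩ A' j).card : ℝ) * (M / (A' k).card)
        ≤ ∑ k, ((if k = j then M else 0) + lam * (2 * M / (c * q))) := by
          apply sum_le_sum
          intro k _
          by_cases hkj : k = j
          · subst hkj
            rw [inter_self, mul_div_cancel₀ _ (hA'0 k).ne']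
            simp only [if_true]
            have : 0 ≤ lam * (2 * M / (c * q)) := by positivity
            linarith
          · simp only [hkj, if_false, zero_add]
            have h1 : ((A' k ∩ A' j).card : ℝ) ≤ lam := by
              have h2 : (A' k ∩ A' j).card ≤ (A k ∩ A j).card :=
                card_le_card (inter_subset_inter (filter_subset _ _) (filter_subset _ _))
              exact_mod_cast h2.trans (hI k j hkj)
            exact mul_le_mul h1 (hterm k) (div_nonneg hM0.le (Nat.cast_nonneg _)) hlam0
      _ = M + m * (lam * (2 * M / (c * q))) := by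
          rw [sum_add_distrib, sum_ite_eq']
          simp
      _ ≤ M + (K * q) * (lam * (2 * M / (c * q))) := by
          have : 0 ≤ lam * (2 * M / (c * q)) := by positivity
          have := mul_le_mul_of_nonneg_right hm this
          linarith
      _ = M * (1 + 2 * lam * K / c) := by
          have : q ≠ 0 := by
            rintro h
            rw [h] at hcq
            simp at hcq
          field_simp
  -- rounding
  obtain ⟨x, hx1, hx2, hx3⟩ := round A' D hdegA' _ y (fun v => ⟨hy0 v, hy1 v⟩) rfl
  refine ⟨univ.filter (fun v => x v = 1), fun j => ?_⟩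
  have hcount : ((A j ∩ univ.filter (fun v => x v = 1)).card : ℝ) = ∑ v ∈ A' j, x v := by
    have e1 : A j ∩ univ.filter (fun v => x v = 1) = (A' j).filter (fun v => x v = 1) := by
      ext v
      simp only [mem_inter, mem_filter, mem_univ, true_and, hmemA']
      constructor
      · rintro ⟨h1, h2⟩
        refine ⟨⟨h1, ?_⟩, h2⟩
        by_contra hbig
        have hyv : y v = 0 := by
          rw [hy]
          apply sum_eq_zero
          intro k _
          rw [if_neg]
          rw [hmemA']
          exact fun h => hbig h.2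
        have := hx2 v (Or.inl hyv)
        rw [h2, hyv] at this
        norm_num at this
      · rintro ⟨⟨h1, _⟩, h2⟩
        exact ⟨h1, h2⟩
    rw [e1, card_filter]
    push_cast
    apply sum_congr rfl
    intro v _
    rcases hx1 v with h | h <;> simp [h]
  have h3 := abs_le.1 (hx3 j)
  have h4 := hlow j
  have h5 := hup j
  constructor
  · have : (1 : ℝ) ≤ ((A j ∩ univ.filter (fun v => x v = 1)).card : ℝ) := by
      rw [hcount]
      linarith [h3.1]
    exact_mod_cast this
  · have : ((A j ∩ univ.filter (fun v => x v = 1)).card : ℝ) ≤ C₁ := by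
      rw [hcount]
      linarith [h3.2]
    have h6 : (A j ∩ univ.filter (fun v => x v = 1)).card ≤ C₁ := by exact_mod_cast this
    exact h6.trans (le_max_left _ _)

end K3h83.BT
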