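import Mathlib

/-!
# A random subset
-/

set_option autoImplicit false

namespace K3h83.BT

open Finset

variable {X : Type*} [Fintype X] [DecidableEq X]

/-- weight of the subset `S` -/
noncomputable def Wt (p : X → ℝ) (S : Finset X) : ℝ := (∏ x ∈ S, p x) * ∏ x ∈ Sᶜ, (1 - p x)

theorem sum_Wt_pow (p : X → ℝ) (A : Finset X) (t : ℝ) :
    ∑ S : Finset X, Wt p S * t ^ (A ∩ S).card = ∏ x ∈ A, (1 - p x + t * p x) := by
  have h1 : ∏ x : X, ((if x ∈ A then t else 1) * p x + (1 - p x)) =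
      ∑ S : Finset X, (∏ x ∈ S, (if x ∈ A then t else 1) * p x) * ∏ x ∈ Sᶜ, (1 - p x) := by
    rw [prod_add]
    rw [powerset_univ]
    apply sum_congr rfl
    intro S _
    rw [compl_eq_univ_sdiff]
  have h2 : ∀ S : Finset X, (∏ x ∈ S, (if x ∈ A then t else 1) * p x) =
      (∏ x ∈ S, p x) * t ^ (A ∩ S).card := by
    intro S
    rw [prod_mul_distrib, mul_comm, prod_ite, prod_const_one, mul_one, prod_const]
    congr 2
    congr 1
    ext x
    simp [and_comm]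
  have h3 : ∏ x : X, ((if x ∈ A then t else 1) * p x + (1 - p x)) =
      ∏ x ∈ A, (1 - p x + t * p x) := by
    rw [← prod_subset (subset_univ A)]
    · apply prod_congr rfl
      intro x hx
      rw [if_pos hx]; ring
    · intro x _ hx
      rw [if_neg hx]; ring
  rw [← h3, h1]
  apply sum_congr rfl
  intro S _
  rw [h2]
  unfold Wt
  ring

theorem sum_Wt (p : X → ℝ) : ∑ S : Finset X, Wt p S = 1 := by
  have := sum_Wt_pow p ∅ 1
  simpa using this

theorem Wt_nonneg {p : X → ℝ} (hp : ∀ x, 0 ≤ p x ∧ p x ≤ 1) (S : Finset X) : 0 ≤ Wt p S := by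
  apply mul_nonneg
  · exact prod_nonneg fun x _ => (hp x).1
  · exact prod_nonneg fun x _ => by linarith [(hp x).2]

/-- **Random subset.** -/
theorem random_subset {J : Type*} [Fintype J] (A : J → Finset X) (p : X → ℝ)
    (hp : ∀ x, 0 ≤ p x ∧ p x ≤ 1) (L : ℝ)
    (h : ∑ k, (Real.exp (-∑ x ∈ A k, p x) + Real.exp (∑ x ∈ A k, p x) * (2 : ℝ) ^ (-L)) < 1) :
    ∃ S : Finset X, ∀ k, 1 ≤ (A k ∩ S).card ∧ ((A k ∩ S).card : ℝ) < L := by
  classical
  by_contra hcon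
  push Not at hcon
  have hZ : ∀ S : Finset X, 1 ≤ ∑ k, ((0 : ℝ) ^ (A k ∩ S).card +
      (2 : ℝ) ^ (A k ∩ S).card * (2 : ℝ) ^ (-L)) := by
    intro S
    obtain ⟨k, hk⟩ := hcon S
    have hnn : ∀ k ∈ univ, (0 : ℝ) ≤ (0 : ℝ) ^ (A k ∩ S).card +
        (2 : ℝ) ^ (A k ∩ S).card * (2 : ℝ) ^ (-L) := by
      intro k _
      have : (0 : ℝ) ≤ 2 ^ (-L) := (Real.rpow_pos_of_pos (by norm_num) _).le
      positivity
    refine le_trans ?_ (single_le_sum hnn (mem_univ k))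
    by_cases h0 : (A k ∩ S).card = 0
    · rw [h0, pow_zero]
      have : (0 : ℝ) ≤ 2 ^ (-L) := (Real.rpow_pos_of_pos (by norm_num) _).le
      linarith [mul_nonneg (zero_le_one (α := ℝ)) this]
    · have h1 := hk (by omega)
      have h2 : (1 : ℝ) ≤ (2 : ℝ) ^ (A k ∩ S).card * (2 : ℝ) ^ (-L) := by
        rw [← Real.rpow_natCast, ← Real.rpow_add (by norm_num)]
        apply Real.one_le_rpow (by norm_num)
        linarith
      have h3 : (0 : ℝ) ≤ (0 : ℝ) ^ (A k ∩ S).card := by positivity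
      linarith
  have h1 : (1 : ℝ) ≤ ∑ S : Finset X, Wt p S * ∑ k, ((0 : ℝ) ^ (A k ∩ S).card +
      (2 : ℝ) ^ (A k ∩ S).card * (2 : ℝ) ^ (-L)) := by
    calc (1 : ℝ) = ∑ S : Finset X, Wt p S * 1 := by simp [sum_Wt]
      _ ≤ _ := sum_le_sum fun S _ => mul_le_mul_of_nonneg_left (hZ S) (Wt_nonneg hp S)
  have h2 : ∑ S : Finset X, Wt p S * ∑ k, ((0 : ℝ) ^ (A k ∩ S).card +
      (2 : ℝ) ^ (A k ∩ S).card * (2 : ℝ) ^ (-L)) =
      ∑ k, (∏ x ∈ A k, (1 - p x + 0 * p x) +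
        (∏ x ∈ A k, (1 - p x + 2 * p x)) * (2 : ℝ) ^ (-L)) := by
    simp_rw [mul_sum, mul_add]
    rw [sum_comm]
    apply sum_congr rfl
    intro k _
    rw [sum_add_distrib, sum_Wt_pow]
    congr 1
    rw [← sum_Wt_pow, sum_mul]
    apply sum_congr rfl
    intro S _
    ring
  have h3 : ∀ k, ∏ x ∈ A k, (1 - p x + 0 * p x) ≤ Real.exp (-∑ x ∈ A k, p x) := by
    intro k
    rw [← sum_neg_distrib, Real.exp_sum]
    apply prod_le_prod
    · intro x _
      linarith [(hp x).2]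
    · intro x _
      have := Real.add_one_le_exp (-p x)
      linarith
  have h4 : ∀ k, ∏ x ∈ A k, (1 - p x + 2 * p x) ≤ Real.exp (∑ x ∈ A k, p x) := by
    intro k
    rw [Real.exp_sum]
    apply prod_le_prod
    · intro x _
      linarith [(hp x).1]
    · intro x _
      have := Real.add_one_le_exp (p x)
      linarith
  have h5 : ∑ k, (∏ x ∈ A k, (1 - p x + 0 * p x) +
        (∏ x ∈ A k, (1 - p x + 2 * p x)) * (2 : ℝ) ^ (-L)) ≤
      ∑ k, (Real.exp (-∑ x ∈ A k, p x) + Real.exp (∑ x ∈ A k, p x) * (2 : ℝ) ^ (-L)) := by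
    apply sum_le_sum
    intro k _
    have : (0 : ℝ) ≤ 2 ^ (-L) := (Real.rpow_pos_of_pos (by norm_num) _).le
    exact add_le_add (h3 k) (mul_le_mul_of_nonneg_right (h4 k) this)
  rw [h2] at h1
  linarith

end K3h83.BT
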