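import Mathlib

/-!
# Rounding a fractional vector on a set system of bounded degree (Beck-Fiala)
-/

set_option autoImplicit false

namespace K3h83.BT

open Finset

/-- Fewer than `|F|` functionals have a common nonzero kernel vector supported on `F`. -/
theorem exists_direction {V J : Type*} [Fintype V] [DecidableEq V] (F : Finset V) (EJ : Finset J)
    (c : J → (V → ℝ) →ₗ[ℝ] ℝ) (hcard : EJ.card < F.card) :
    ∃ y : V → ℝ, (∀ v ∉ F, y v = 0) ∧ (∃ v ∈ F, y v ≠ 0) ∧ ∀ j ∈ EJ, c j y = 0 := by
  classical
  let ext : (F → ℝ) →ₗ[ℝ] (V → ℝ) :=
    { toFun := fun z v => if h : v ∈ F then z ⟨v, h⟩ else 0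
      map_add' := by
        intro z1 z2
        funext v
        by_cases h : v ∈ F <;> simp [h]
      map_smul' := by
        intro r z
        funext v
        by_cases h : v ∈ F <;> simp [h] }
  let f : (F → ℝ) →ₗ[ℝ] (EJ → ℝ) := LinearMap.pi (fun j => (c j).comp ext)
  have hker : LinearMap.ker f ≠ ⊥ := by
    apply LinearMap.ker_ne_bot_of_finrank_lt
    simpa using hcard
  obtain ⟨z, hz, hz0⟩ := Submodule.exists_mem_ne_zero_of_ne_bot hker
  refine ⟨ext z, ?_, ?_, ?_⟩
  · intro v hv
    simp [ext, hv]
  · by_contra hcon
    push Not at hcon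
    apply hz0
    funext v
    have := hcon v v.2
    simpa [ext] using this
  · intro j hj
    have h1 := LinearMap.mem_ker.1 hz
    have h2 := congrFun h1 ⟨j, hj⟩
    simpa [f] using h2

/-- Moving along a direction until a floating coordinate becomes integral. -/
theorem move {V : Type*} [Fintype V] [DecidableEq V] (y z : V → ℝ) (F : Finset V)
    (hy : ∀ v, 0 ≤ y v ∧ y v ≤ 1) (hz : ∀ v ∉ F, z v = 0) (hz0 : ∃ v ∈ F, z v ≠ 0) :
    ∃ s : ℝ, (∀ v, 0 ≤ y v + s * z v ∧ y v + s * z v ≤ 1) ∧
      ∃ v ∈ F, y v + s * z v = 0 ∨ y v + s * z v = 1 := by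
  classical
  -- the largest step allowed by the coordinate `v`
  let r : V → ℝ := fun v => if 0 < z v then (1 - y v) / z v else (- y v) / z v
  set G := F.filter (fun v => z v ≠ 0) with hG
  have hne : G.Nonempty := by
    obtain ⟨v, hv, hv0⟩ := hz0
    exact ⟨v, by simp [hG, hv, hv0]⟩
  obtain ⟨v₀, hv₀, hmin⟩ := exists_min_image G r hne
  rw [hG, mem_filter] at hv₀
  have hr0 : ∀ v, z v ≠ 0 → 0 ≤ r v := by
    intro v hv
    simp only [r]
    split_ifs with h
    · exact div_nonneg (by linarith [(hy v).2]) h.le
    · have : z v < 0 := lt_of_le_of_ne (not_lt.1 h) hv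
      exact div_nonneg_of_nonpos (by linarith [(hy v).1]) this.le
  have hs0 : 0 ≤ r v₀ := hr0 v₀ hv₀.2
  refine ⟨r v₀, ?_, v₀, hv₀.1, ?_⟩
  · intro v
    by_cases hv : z v = 0
    · rw [hv]; simpa using hy v
    · have hvF : v ∈ F := by
        by_contra h
        exact hv (hz v h)
      have h1 : r v₀ ≤ r v := hmin v (by simp [hG, hvF, hv])
      have h2 := hy v
      by_cases hp : 0 < z v
      · have e : r v = (1 - y v) / z v := by simp [r, hp]
        rw [e, le_div_iff₀ hp] at h1
        constructor
        · have : 0 ≤ r v₀ * z v := mul_nonneg hs0 hp.le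
          linarith
        · linarith
      · have hn : z v < 0 := lt_of_le_of_ne (not_lt.1 hp) hv
        have e : r v = (- y v) / z v := by simp [r, hp]
        rw [e, le_div_iff_of_neg hn] at h1
        constructor
        · linarith
        · have : r v₀ * z v ≤ 0 := mul_nonpos_of_nonneg_of_nonpos hs0 hn.le
          linarith
  · by_cases hp : 0 < z v₀
    · right
      have e : r v₀ = (1 - y v₀) / z v₀ := by simp [r, hp]
      rw [e, div_mul_cancel₀ _ hp.ne']
      ring
    · left
      have e : r v₀ = (- y v₀) / z v₀ := by simp [r, hp]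
      rw [e, div_mul_cancel₀ _ hv₀.2]
      ring

/-- **Rounding.** If every point lies in at most `D` of the sets `B j`, then every `y` with values
in `[0, 1]` can be rounded to `x` with values in `{0, 1}` such that all the sums over the sets `B j`
change by at most `D`. -/
theorem round {V J : Type*} [Fintype V] [DecidableEq V] [Fintype J] [DecidableEq J]
    (B : J → Finset V) (D : ℕ)
    (hD : ∀ v, (univ.filter (fun j => v ∈ B j)).card ≤ D) :
    ∀ (N : ℕ) (y : V → ℝ), (∀ v, 0 ≤ y v ∧ y v ≤ 1) →
      (univ.filter (fun v => y v ≠ 0 ∧ y v ≠ 1)).card = N →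
      ∃ x : V → ℝ, (∀ v, x v = 0 ∨ x v = 1) ∧ (∀ v, y v = 0 ∨ y v = 1 → x v = y v) ∧
        ∀ j, |∑ v ∈ B j, x v - ∑ v ∈ B j, y v| ≤ D := by
  intro N
  induction N using Nat.strong_induction_on with
  | _ N ih =>
    intro y hy hN
    set F := univ.filter (fun v => y v ≠ 0 ∧ y v ≠ 1) with hF
    have hmemF : ∀ v, v ∈ F ↔ y v ≠ 0 ∧ y v ≠ 1 := fun v => by simp [hF]
    rcases F.eq_empty_or_nonempty with hFe | hFne
    · refine ⟨y, ?_, fun _ _ => rfl, ?_⟩
      · intro v
        by_contra hcon
        push Not at hcon
        have : v ∈ F := (hmemF v).2 hcon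
        simp [hFe] at this
      · intro j; simp
    · -- the active sets
      set EJ := univ.filter (fun j => D < (B j ∩ F).card) with hEJ
      have hcard : EJ.card < F.card := by
        have h1 : EJ.card * (D + 1) ≤ F.card * D := by
          calc EJ.card * (D + 1) = ∑ _j ∈ EJ, (D + 1) := by simp
            _ ≤ ∑ j ∈ EJ, (B j ∩ F).card := by
                apply sum_le_sum
                intro j hj
                have := (mem_filter.1 hj).2
                omega
            _ ≤ ∑ j, (B j ∩ F).card := by
                apply sum_le_sum_of_subset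
                exact subset_univ _
            _ = ∑ j, ∑ v ∈ F, (if v ∈ B j then 1 else 0) := by
                apply sum_congr rfl
                intro j _
                rw [card_eq_sum_ones, ← sum_filter]
                apply sum_congr _ fun _ _ => rfl
                ext v; simp [and_comm]
            _ = ∑ v ∈ F, ∑ j, (if v ∈ B j then 1 else 0) := sum_comm
            _ = ∑ v ∈ F, (univ.filter (fun j => v ∈ B j)).card := by
                apply sum_congr rfl
                intro v _
                rw [card_filter]
            _ ≤ ∑ _v ∈ F, D := sum_le_sum fun v _ => hD v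
            _ = F.card * D := by simp
        have hFpos : 0 < F.card := hFne.card_pos
        by_contra hcon
        push Not at hcon
        nlinarith
      obtain ⟨z, hz1, hz2, hz3⟩ := exists_direction F EJ
        (fun j => ∑ v ∈ B j, (LinearMap.proj v : (V → ℝ) →ₗ[ℝ] ℝ)) hcard
      obtain ⟨s, hs1, v₀, hv₀, hs2⟩ := move y z F hy hz1 hz2
      set y' : V → ℝ := fun v => y v + s * z v with hy'
      have hoff : ∀ v ∉ F, y' v = y v := by
        intro v hv
        simp [hy', hz1 v hv]
      have hlt : (univ.filter (fun v => y' v ≠ 0 ∧ y' v ≠ 1)).card < N := by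
        rw [← hN]
        apply card_lt_card
        rw [ssubset_iff_of_subset]
        · refine ⟨v₀, hv₀, ?_⟩
          simp only [mem_filter, mem_univ, true_and, not_and_or, not_not]
          exact hs2
        · intro v hv
          simp only [mem_filter, mem_univ, true_and] at hv
          by_contra h
          rw [hoff v h] at hv
          exact h ((hmemF v).2 hv)
      obtain ⟨x, hx1, hx2, hx3⟩ := ih _ hlt y' hs1 rfl
      refine ⟨x, hx1, ?_, ?_⟩
      · intro v hv
        have hvF : v ∉ F := by
          rw [hmemF]
          rintro ⟨h1, h2⟩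
          rcases hv with h | h
          · exact h1 h
          · exact h2 h
        have := hoff v hvF
        rw [← this]
        apply hx2
        rw [this]; exact hv
      · intro j
        by_cases hj : D < (B j ∩ F).card
        · have hjE : j ∈ EJ := by simp [hEJ, hj]
          have h0 := hz3 j hjE
          have h0' : ∑ v ∈ B j, z v = 0 := by simpa using h0
          have h1 : ∑ v ∈ B j, y' v = ∑ v ∈ B j, y v := by
            simp only [hy', sum_add_distrib, ← mul_sum, h0', mul_zero, add_zero]
          have := hx3 j
          rwa [h1] at this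
        · push Not at hj
          have hxy : ∀ v ∉ F, x v = y v := by
            intro v hv
            have hv' : y v = 0 ∨ y v = 1 := by
              by_contra hcon
              push Not at hcon
              exact hv ((hmemF v).2 hcon)
            have e := hoff v hv
            rw [← e]
            apply hx2
            rw [e]; exact hv'
          have h1 : ∑ v ∈ B j, x v - ∑ v ∈ B j, y v = ∑ v ∈ B j ∩ F, (x v - y v) := by
            rw [← sum_sub_distrib]
            symm
            apply sum_subset inter_subset_left
            intro v hv hv2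
            have : v ∉ F := fun h => hv2 (mem_inter.2 ⟨hv, h⟩)
            rw [hxy v this, sub_self]
          rw [h1]
          calc |∑ v ∈ B j ∩ F, (x v - y v)| ≤ ∑ v ∈ B j ∩ F, |x v - y v| := abs_sum_le_sum_abs _ _
            _ ≤ ∑ _v ∈ B j ∩ F, (1 : ℝ) := by
                apply sum_le_sum
                intro v _
                rw [abs_le]
                have := hy v
                rcases hx1 v with h | h <;> rw [h] <;> constructor <;> linarith
            _ = ((B j ∩ F).card : ℝ) := by simp
            _ ≤ D := by exact_mod_cast hj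

end K3h83.BT
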