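import Pool.Agent.K3h83.BT.Pos
import Pool.Agent.K3h83.BT.Rand

/-!
# Transversals bounded by `O(log n)`
-/

set_option autoImplicit false

namespace K3h83.BT

open Finset Filter

theorem count_sets {n m lam : ℕ} (A : Fin m → Finset (Fin n)) (h1 : ∀ k, lam + 1 ≤ (A k).card)
    (h2 : ∀ k l, k ≠ l → (A k ∩ A l).card ≤ lam) : m ≤ n ^ (lam + 1) := by
  classical
  have hf : ∀ k, ∃ f : Fin (lam + 1) → Fin n, Function.Injective f ∧ ∀ i, f i ∈ A k := by
    intro k
    obtain ⟨T, hT1, hT2⟩ := exists_subset_card_eq (h1 k)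
    refine ⟨fun i => ((T.equivFinOfCardEq hT2).symm i : T).1, ?_, fun i => ?_⟩
    · intro i j hij
      have := Subtype.ext hij
      exact (T.equivFinOfCardEq hT2).symm.injective this
    · exact hT1 ((T.equivFinOfCardEq hT2).symm i).2
  choose f hf1 hf2 using hf
  have hinj : Function.Injective f := by
    intro k l hkl
    by_contra hne
    have h3 := h2 k l hne
    have h4 : univ.image (f k) ⊆ A k ∩ A l := by
      intro x hx
      rw [mem_image] at hx
      obtain ⟨i, _, rfl⟩ := hx
      rw [mem_inter]
      refine ⟨hf2 k i, ?_⟩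
      rw [hkl]
      exact hf2 l i
    have h5 := card_le_card h4
    rw [card_image_of_injective _ (hf1 k), card_univ, Fintype.card_fin] at h5
    omega
  have := Fintype.card_le_of_injective f hinj
  simpa using this

/-- **Transversals bounded by a multiple of `log n`.** -/
theorem upper (lam : ℕ) (c : ℝ) (hc : 0 < c) :
    ∃ C : ℝ, ∀ (n m : ℕ) (A : Fin m → Finset (Fin n)),
      (∀ k, c * √(n : ℝ) < (A k).card) →
      (∀ k l, k ≠ l → (A k ∩ A l).card ≤ lam) →
      ∃ S : Finset (Fin n), ∀ k, 1 ≤ (A k ∩ S).card ∧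
        ((A k ∩ S).card : ℝ) ≤ C * (1 + Real.log n) := by
  classical
  have hlam0 : (0 : ℝ) ≤ lam := Nat.cast_nonneg _
  set B : ℝ := 4 * lam / c + 2 * lam + 2 with hB
  have hB2 : 2 ≤ B := by
    have : 0 ≤ 4 * lam / c := by positivity
    linarith
  have hB0 : 0 < B := by linarith
  have hcB : 4 * lam + 2 * c * (lam + 1) ≤ c * B := by
    rw [hB]
    have : c * (4 * lam / c) = 4 * lam := by field_simp
    nlinarith
  have hBsq : (lam : ℝ) < B ^ 2 := by
    have h1 : 2 * lam + 2 ≤ B := by
      have : 0 ≤ 4 * lam / c := by positivity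
      linarith
    nlinarith
  have hBc : lam * (B / (B ^ 2 - lam)) ≤ c / 2 := by
    have hd : 0 < B ^ 2 - lam := by linarith
    rw [mul_div_assoc', div_le_iff₀ hd]
    have h1 : B * (4 * lam + 2 * c * (lam + 1)) ≤ B * (c * B) := mul_le_mul_of_nonneg_left hcB hB0.le
    have h2 : 0 ≤ lam * B := by positivity
    have h3 : c * lam ≤ c * (lam + 1) * B := by
      have : c * (lam + 1) * 1 ≤ c * (lam + 1) * B := by
        apply mul_le_mul_of_nonneg_left (by linarith)
        positivity
      nlinarith
    nlinarith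
  set η : ℝ := min c 1 / 2 with hη
  have hη0 : 0 < η := by
    have : 0 < min c 1 := lt_min hc one_pos
    positivity
  have hη1 : η ≤ c / 2 := by
    have := min_le_left c 1
    linarith
  have hη2 : η ≤ 1 / 2 := by
    have := min_le_right c 1
    linarith
  set T₀ : ℝ := (lam + 2) / η with hT₀
  have hT₀0 : 0 < T₀ := by positivity
  -- large `n`
  obtain ⟨n₀, hn₀⟩ : ∃ n₀ : ℕ, ∀ n : ℕ, n₀ ≤ n → (lam : ℝ) + 1 ≤ c * √(n : ℝ) ∧
      T₀ * (1 + Real.log n) ≤ √(n : ℝ) ∧ 1 ≤ n := by
    have h1 : (fun x : ℝ => T₀ * (1 + Real.log x)) =o[atTop] (fun x : ℝ => x ^ (1 / 2 : ℝ)) := by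
      apply Asymptotics.IsLittleO.const_mul_left
      apply Asymptotics.IsLittleO.add
      · exact Asymptotics.isLittleO_const_left.2 (Or.inr (tendsto_norm_atTop_atTop.comp
          (tendsto_rpow_atTop (by norm_num))))
      · exact isLittleO_log_rpow_atTop (by norm_num)
    have h2 : ∀ᶠ x : ℝ in atTop, T₀ * (1 + Real.log x) ≤ √x := by
      filter_upwards [h1.def (show (0 : ℝ) < 1 by norm_num), eventually_ge_atTop 0] with x a b
      rw [Real.sqrt_eq_rpow]
      calc _ ≤ ‖T₀ * (1 + Real.log x)‖ := Real.le_norm_self _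
        _ ≤ 1 * ‖x ^ (1 / 2 : ℝ)‖ := a
        _ = x ^ (1 / 2 : ℝ) := by rw [one_mul, Real.norm_of_nonneg (by positivity)]
    have h3 : ∀ᶠ x : ℝ in atTop, (lam : ℝ) + 1 ≤ c * √x := by
      have : Tendsto (fun x : ℝ => c * √x) atTop atTop :=
        Tendsto.const_mul_atTop hc Real.tendsto_sqrt_atTop
      exact this.eventually_ge_atTop _
    obtain ⟨x₀, hx₀⟩ := eventually_atTop.1 (h2.and h3)
    obtain ⟨N, hN⟩ := exists_nat_ge x₀
    refine ⟨max N 1, fun n hn => ?_⟩
    have h4 := hx₀ n (hN.trans (by exact_mod_cast (le_max_left _ _).trans hn))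
    exact ⟨h4.2, h4.1, (le_max_right _ _).trans hn⟩
  have hlog2 : 0 < Real.log 2 := Real.log_pos (by norm_num)
  set C' : ℝ := (T₀ * B + (lam + 2)) / Real.log 2 with hC'
  have hC'0 : 0 ≤ C' := by positivity
  refine ⟨max C' n₀, ?_⟩
  intro n m A hA hI
  have hlogn : 0 ≤ Real.log (n : ℝ) := Real.log_natCast_nonneg n
  have hA0 : ∀ k, (0 : ℝ) < (A k).card := fun k =>
    lt_of_le_of_lt (mul_nonneg hc.le (Real.sqrt_nonneg _)) (hA k)
  rcases lt_or_ge n n₀ with hn | hn
  · -- few points
    refine ⟨univ, fun k => ?_⟩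
    rw [inter_univ]
    constructor
    · have := hA0 k
      exact_mod_cast this
    · calc ((A k).card : ℝ) ≤ (n : ℝ) := by
            have := card_le_card (subset_univ (A k))
            rw [card_univ, Fintype.card_fin] at this
            exact_mod_cast this
        _ ≤ n₀ := by exact_mod_cast hn.le
        _ ≤ max C' n₀ * 1 := by rw [mul_one]; exact le_max_right _ _
        _ ≤ max C' n₀ * (1 + Real.log n) := by
            apply mul_le_mul_of_nonneg_left (by linarith)
            exact le_trans hC'0 (le_max_left _ _)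
  obtain ⟨hn1, hn2, hn3⟩ := hn₀ n hn
  set q : ℝ := √(n : ℝ) with hq
  have hn3' : (1 : ℝ) ≤ n := by exact_mod_cast hn3
  have hq0 : 0 < q := Real.sqrt_pos.2 (by linarith)
  -- the big sets
  let big : Fin m → Prop := fun k => B * q < (A k).card
  have hbigcount : ((univ.filter big).card : ℝ) ≤ B / (B ^ 2 - lam) * q := by
    let e := (univ.filter big).equivFin
    have := few_sets (fun i => A (e.symm i).1) lam B hB0 hBsq
      (fun i => (mem_filter.1 (e.symm i).2).2)
      (fun i j hij => hI _ _ (fun h => hij (e.symm.injective (Subtype.ext h))))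
    exact this
  have hshare : ∀ j, ((A j).card : ℝ) / 2 ≤
      ((A j).filter (fun x => ∀ k, big k → k ≠ j → x ∉ A k)).card := by
    intro j
    set G := (A j).filter (fun x => ∀ k, big k → k ≠ j → x ∉ A k) with hG
    have h1 : A j ⊆ G ∪ ((univ.filter big).erase j).biUnion (fun k => A j ∩ A k) := by
      intro x hx
      rw [mem_union]
      by_cases h : ∀ k, big k → k ≠ j → x ∉ A k
      · left; rw [hG, mem_filter]; exact ⟨hx, h⟩
      · right
        push Not at h
        obtain ⟨k, hk1, hk2, hk3⟩ := h
        rw [mem_biUnion]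
        exact ⟨k, by simp [hk1, hk2], mem_inter.2 ⟨hx, hk3⟩⟩
    have h2 : (A j).card ≤ G.card + (univ.filter big).card * lam := by
      calc (A j).card ≤ _ := card_le_card h1
        _ ≤ G.card + (((univ.filter big).erase j).biUnion (fun k => A j ∩ A k)).card :=
            card_union_le _ _
        _ ≤ G.card + ∑ k ∈ (univ.filter big).erase j, (A j ∩ A k).card :=
            Nat.add_le_add_left card_biUnion_le _
        _ ≤ G.card + ∑ _k ∈ (univ.filter big).erase j, lam := by
            apply Nat.add_le_add_left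
            apply sum_le_sum
            intro k hk
            exact hI j k (fun h => (mem_erase.1 hk).1 h.symm)
        _ ≤ G.card + (univ.filter big).card * lam := by
            rw [sum_const, smul_eq_mul]
            exact Nat.add_le_add_left (Nat.mul_le_mul_right _ (card_erase_le)) _
    have h3 : ((A j).card : ℝ) ≤ G.card + (univ.filter big).card * lam := by exact_mod_cast h2
    have h4 : ((univ.filter big).card : ℝ) * lam ≤ c / 2 * q := by
      calc ((univ.filter big).card : ℝ) * lam ≤ B / (B ^ 2 - lam) * q * lam :=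
            mul_le_mul_of_nonneg_right hbigcount hlam0
        _ = lam * (B / (B ^ 2 - lam)) * q := by ring
        _ ≤ c / 2 * q := mul_le_mul_of_nonneg_right hBc hq0.le
    have h5 := hA j
    linarith
  -- the fractional transversal
  let Mx : Fin n → ℕ := fun x => (univ.filter (fun k => big k ∧ x ∈ A k)).sup (fun k => (A k).card)
  let y : Fin n → ℝ := fun x => 1 / max q (Mx x)
  have hmax0 : ∀ x, 0 < max q (Mx x : ℝ) := fun x => lt_max_of_lt_left hq0
  have hyq : ∀ x, y x ≤ 1 / q := fun x => one_div_le_one_div_of_le hq0 (le_max_left _ _)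
  have hy0 : ∀ x, 0 ≤ y x := fun x => (one_div_pos.2 (hmax0 x)).le
  have hyup : ∀ j, ∑ x ∈ A j, y x ≤ B := by
    intro j
    by_cases hj : big j
    · have h1 : ∀ x ∈ A j, y x ≤ 1 / (A j).card := by
        intro x hx
        apply one_div_le_one_div_of_le (hA0 j)
        have : (A j).card ≤ Mx x := by
          apply le_sup (f := fun k => (A k).card)
          simp [hj, hx]
        exact le_max_of_le_right (by exact_mod_cast this)
      calc ∑ x ∈ A j, y x ≤ ∑ _x ∈ A j, (1 / ((A j).card : ℝ)) := sum_le_sum h1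
        _ = 1 := by rw [sum_const, nsmul_eq_mul, mul_one_div_cancel (hA0 j).ne']
        _ ≤ B := by linarith
    · have hj' : ((A j).card : ℝ) ≤ B * q := not_lt.1 hj
      calc ∑ x ∈ A j, y x ≤ ∑ _x ∈ A j, (1 / q) := sum_le_sum fun x _ => hyq x
        _ = (A j).card / q := by rw [sum_const, nsmul_eq_mul, mul_one_div]
        _ ≤ B := by rw [div_le_iff₀ hq0]; exact hj'
  have hylow : ∀ j, η ≤ ∑ x ∈ A j, y x := by
    intro j
    set G := (A j).filter (fun x => ∀ k, big k → k ≠ j → x ∉ A k) with hG
    have hsub : ∑ x ∈ G, y x ≤ ∑ x ∈ A j, y x :=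
      sum_le_sum_of_subset_of_nonneg (filter_subset _ _) fun x _ _ => hy0 x
    refine le_trans ?_ hsub
    have hGc : ((A j).card : ℝ) / 2 ≤ G.card := hshare j
    by_cases hj : big j
    · have h1 : ∀ x ∈ G, 1 / ((A j).card : ℝ) ≤ y x := by
        intro x hx
        apply one_div_le_one_div_of_le (hmax0 x)
        apply max_le
        · have : B * q < (A j).card := hj
          nlinarith
        · have : Mx x ≤ (A j).card := by
            apply Finset.sup_le
            intro k hk
            simp only [mem_filter, mem_univ, true_and] at hk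
            have : k = j := by
              by_contra hne
              exact (mem_filter.1 hx).2 k hk.1 hne hk.2
            rw [this]
          exact_mod_cast this
      calc η ≤ 1 / 2 := hη2
        _ = ((A j).card : ℝ) / 2 * (1 / (A j).card) := by
            have := (hA0 j).ne'
            field_simp
        _ ≤ G.card * (1 / (A j).card) := by
            apply mul_le_mul_of_nonneg_right hGc
            exact (one_div_pos.2 (hA0 j)).le
        _ = ∑ _x ∈ G, (1 / ((A j).card : ℝ)) := by rw [sum_const, nsmul_eq_mul]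
        _ ≤ _ := sum_le_sum h1
    · have h1 : ∀ x ∈ G, 1 / q ≤ y x := by
        intro x hx
        apply one_div_le_one_div_of_le (hmax0 x)
        apply max_le le_rfl
        have : Mx x ≤ 0 := by
          apply Finset.sup_le
          intro k hk
          simp only [mem_filter, mem_univ, true_and] at hk
          exfalso
          by_cases hkj : k = j
          · rw [hkj] at hk; exact hj hk.1
          · exact (mem_filter.1 hx).2 k hk.1 hkj hk.2
        have : Mx x = 0 := by omega
        rw [this]
        simpa using hq0.le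
      calc η ≤ c / 2 := hη1
        _ = (c * q) / 2 * (1 / q) := by field_simp
        _ ≤ G.card * (1 / q) := by
            apply mul_le_mul_of_nonneg_right _ (by positivity)
            have := hA j
            linarith
        _ = ∑ _x ∈ G, (1 / q) := by rw [sum_const, nsmul_eq_mul]
        _ ≤ _ := sum_le_sum h1
  -- the random subset
  set l : ℝ := 1 + Real.log n with hl
  have hl1 : 1 ≤ l := by linarith
  have hl0 : 0 < l := by linarith
  have hT : T₀ * l ≤ q := hn2
  have hmcount : (m : ℝ) ≤ (n : ℝ) ^ (lam + 1) := by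
    have := count_sets A (lam := lam) (fun k => by
      have h1 := hA k
      have h2 : ((lam + 1 : ℕ) : ℝ) ≤ (A k).card := by
        push_cast
        linarith
      exact_mod_cast h2) hI
    exact_mod_cast this
  set L : ℝ := C' * l with hL
  have hexpn : (n : ℝ) ^ (lam + 1) * Real.exp (-((lam + 2) * l)) ≤ Real.exp (-2) := by
    have h1 : (n : ℝ) ^ (lam + 1) = Real.exp ((lam + 1) * Real.log n) := by
      rw [mul_comm, Real.exp_mul, Real.exp_log (by linarith)]
      rw [← Nat.cast_succ, Real.rpow_natCast]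
    rw [h1, ← Real.exp_add]
    apply Real.exp_le_exp.2
    rw [hl]
    nlinarith
  obtain ⟨S, hS⟩ := random_subset A (fun x => T₀ * l * y x) (fun x => ⟨by
      have := hy0 x
      positivity, by
      calc T₀ * l * y x ≤ q * (1 / q) := mul_le_mul hT (hyq x) (hy0 x) hq0.le
        _ = 1 := mul_one_div_cancel hq0.ne'⟩) L (by
    have hterm : ∀ k, Real.exp (-∑ x ∈ A k, T₀ * l * y x) +
        Real.exp (∑ x ∈ A k, T₀ * l * y x) * (2 : ℝ) ^ (-L) ≤
        2 * Real.exp (-((lam + 2) * l)) := by
      intro k
      rw [← mul_sum]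
      have h1 : (lam + 2) * l ≤ T₀ * l * ∑ x ∈ A k, y x := by
        calc (lam + 2) * l = T₀ * l * η := by rw [hT₀]; field_simp
          _ ≤ _ := mul_le_mul_of_nonneg_left (hylow k) (by positivity)
      have h2 : T₀ * l * ∑ x ∈ A k, y x ≤ T₀ * l * B :=
        mul_le_mul_of_nonneg_left (hyup k) (by positivity)
      have h3 : (2 : ℝ) ^ (-L) = Real.exp (-(T₀ * B + (lam + 2)) * l) := by
        rw [Real.rpow_def_of_pos (by norm_num)]
        congr 1
        rw [hL, hC']
        field_simp
      rw [h3, ← Real.exp_add]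
      have h4 : Real.exp (-(T₀ * l * ∑ x ∈ A k, y x)) ≤ Real.exp (-((lam + 2) * l)) :=
        Real.exp_le_exp.2 (by linarith)
      have h5 : Real.exp (T₀ * l * ∑ x ∈ A k, y x + -(T₀ * B + (lam + 2)) * l) ≤
          Real.exp (-((lam + 2) * l)) := Real.exp_le_exp.2 (by nlinarith)
      linarith
    calc _ ≤ ∑ _k : Fin m, 2 * Real.exp (-((lam + 2) * l)) := sum_le_sum fun k _ => hterm k
      _ = 2 * (m * Real.exp (-((lam + 2) * l))) := by
          rw [sum_const, card_univ, Fintype.card_fin, nsmul_eq_mul]; ring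
      _ ≤ 2 * ((n : ℝ) ^ (lam + 1) * Real.exp (-((lam + 2) * l))) := by
          apply mul_le_mul_of_nonneg_left _ (by norm_num)
          exact mul_le_mul_of_nonneg_right hmcount (Real.exp_pos _).le
      _ ≤ 2 * Real.exp (-2) := mul_le_mul_of_nonneg_left hexpn (by norm_num)
      _ < 1 := by
          have h1 : (3 : ℝ) ≤ Real.exp 2 := by
            have := Real.add_one_le_exp (2 : ℝ)
            linarith
          rw [Real.exp_neg]
          have h2 : (Real.exp 2)⁻¹ ≤ 3⁻¹ := inv_anti₀ (by norm_num) h1
          linarith [show (2 : ℝ) * 3⁻¹ < 1 by norm_num])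
  refine ⟨S, fun k => ⟨(hS k).1, ?_⟩⟩
  calc ((A k ∩ S).card : ℝ) ≤ L := (hS k).2.le
    _ ≤ max C' n₀ * (1 + Real.log n) := by
        rw [hL, hl]
        exact mul_le_mul_of_nonneg_right (le_max_left _ _) (by linarith)

end K3h83.BT
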